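import Mathlib

set_option autoImplicit false

/-!
# Metric ultraproducts of symmetric groups: definitions
-/

namespace Pool.Agent.helper69.MU

open Filter Topology Finset

/-- the normalised Hamming distance on `Sym(n)` -/
noncomputable def dH {n : ℕ} (σ τ : Equiv.Perm (Fin n)) : ℝ :=
  ((univ.filter fun i => σ i ≠ τ i).card : ℝ) / n

/-- the full product of the groups `Sym(n)` -/
abbrev PS : Type := ∀ n : ℕ, Equiv.Perm (Fin n)

theorem dH_nonneg {n : ℕ} (σ τ : Equiv.Perm (Fin n)) : 0 ≤ dH σ τ := by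
  unfold dH; positivity

theorem dH_self {n : ℕ} (σ : Equiv.Perm (Fin n)) : dH σ σ = 0 := by
  simp [dH]

theorem dH_comm {n : ℕ} (σ τ : Equiv.Perm (Fin n)) : dH σ τ = dH τ σ := by
  unfold dH
  congr 3
  ext i
  simp [ne_comm]

theorem dH_triangle {n : ℕ} (σ τ ρ : Equiv.Perm (Fin n)) : dH σ ρ ≤ dH σ τ + dH τ ρ := by
  unfold dH
  rw [← add_div]
  apply div_le_div_of_nonneg_right _ (Nat.cast_nonneg n)
  have h : (univ.filter fun i => σ i ≠ ρ i) ⊆
      (univ.filter fun i => σ i ≠ τ i) ∪ (univ.filter fun i => τ i ≠ ρ i) := by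
    intro i hi
    simp only [mem_union, mem_filter, mem_univ, true_and] at hi ⊢
    by_contra hcon
    push Not at hcon
    exact hi (hcon.1.trans hcon.2)
  calc ((univ.filter fun i => σ i ≠ ρ i).card : ℝ)
      ≤ (((univ.filter fun i => σ i ≠ τ i) ∪ (univ.filter fun i => τ i ≠ ρ i)).card : ℝ) := by
        exact_mod_cast card_le_card h
    _ ≤ _ := by exact_mod_cast card_union_le _ _

theorem dH_mul_left {n : ℕ} (ρ σ τ : Equiv.Perm (Fin n)) : dH (ρ * σ) (ρ * τ) = dH σ τ := by
  unfold dH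
  congr 3
  ext i
  simp

theorem dH_mul_right {n : ℕ} (ρ σ τ : Equiv.Perm (Fin n)) : dH (σ * ρ) (τ * ρ) = dH σ τ := by
  unfold dH
  congr 2
  refine card_bij (fun i _ => ρ i) ?_ ?_ ?_
  · intro i hi
    simp only [mem_filter, mem_univ, true_and] at hi ⊢
    exact hi
  · intro i _ j _ h
    exact ρ.injective h
  · intro j hj
    simp only [mem_filter, mem_univ, true_and] at hj
    refine ⟨ρ⁻¹ j, ?_, by simp⟩
    simp only [mem_filter, mem_univ, true_and]
    simpa using hj

/-- the sequences of permutations whose distance to the identity tends to `0` along `U` -/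
def NU (U : Ultrafilter ℕ) : Subgroup PS where
  carrier := {σ | Tendsto (fun n => dH (σ n) 1) U (𝓝 0)}
  one_mem' := by
    show Tendsto (fun n => dH ((1 : PS) n) 1) U (𝓝 0)
    have : (fun n => dH ((1 : PS) n) 1) = fun _ => (0 : ℝ) := by
      funext n
      exact dH_self _
    rw [this]
    exact tendsto_const_nhds
  mul_mem' := by
    intro σ τ hσ hτ
    show Tendsto (fun n => dH ((σ * τ) n) 1) U (𝓝 0)
    have h := Tendsto.add (show Tendsto (fun n => dH (σ n) 1) U (𝓝 0) from hσ)
      (show Tendsto (fun n => dH (τ n) 1) U (𝓝 0) from hτ)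
    rw [add_zero] at h
    refine squeeze_zero (fun n => dH_nonneg _ _) (fun n => ?_) h
    have h1 := dH_triangle (σ n * τ n) (τ n) 1
    have h2 : dH (σ n * τ n) (τ n) = dH (σ n) 1 := by
      have := dH_mul_right (τ n) (σ n) 1
      rwa [one_mul] at this
    rw [h2] at h1
    exact h1
  inv_mem' := by
    intro σ hσ
    show Tendsto (fun n => dH ((σ⁻¹) n) 1) U (𝓝 0)
    have : (fun n => dH ((σ⁻¹) n) 1) = fun n => dH (σ n) 1 := by
      funext n
      have := dH_mul_left (σ n) (σ n)⁻¹ 1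
      rw [mul_inv_cancel, mul_one, dH_comm] at this
      exact this.symm
    rw [this]
    exact hσ

theorem mem_NU {U : Ultrafilter ℕ} {σ : PS} :
    σ ∈ NU U ↔ Tendsto (fun n => dH (σ n) 1) U (𝓝 0) := Iff.rfl

instance (U : Ultrafilter ℕ) : (NU U).Normal where
  conj_mem := by
    intro σ hσ τ
    rw [mem_NU] at hσ ⊢
    have : (fun n => dH ((τ * σ * τ⁻¹) n) 1) = fun n => dH (σ n) 1 := by
      funext n
      have h1 := dH_mul_right (τ n)⁻¹ (τ n * σ n) (τ n)
      rw [mul_inv_cancel] at h1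
      have h2 := dH_mul_left (τ n) (σ n) 1
      rw [mul_one] at h2
      exact h1.trans h2
    rw [this]
    exact hσ

/-- the metric ultraproduct of the symmetric groups `Sym(n)` along `U` -/
abbrev GU (U : Ultrafilter ℕ) : Type := PS ⧸ NU U

/-- the class of a sequence of permutations -/
abbrev cls (U : Ultrafilter ℕ) (σ : PS) : GU U := (QuotientGroup.mk σ : PS ⧸ NU U)

/-- `U` is selective (Ramsey): every function on `ℕ` is constant or injective on a set in `U` -/
def Selective (U : Ultrafilter ℕ) : Prop :=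
  ∀ f : ℕ → ℕ, ∃ A ∈ U, (∃ c, ∀ n ∈ A, f n = c) ∨ Set.InjOn f A

/-- the automorphism `α` is inner -/
def Inner {U : Ultrafilter ℕ} (α : GU U ≃* GU U) : Prop := ∃ g : GU U, ∀ x, α x = g * x * g⁻¹

/-- the automorphism `α` is induced by a sequence of maps `Sym(n) → Sym(n)` -/
def Coordinatewise {U : Ultrafilter ℕ} (α : GU U ≃* GU U) : Prop :=
  ∃ φ : ∀ n : ℕ, Equiv.Perm (Fin n) → Equiv.Perm (Fin n),
    ∀ x : PS, α (cls U x) = cls U fun n => φ n (x n)

/-- `A n` has proportion tending to `0` in `{1, ..., n}` along `U` -/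
def Null (U : Ultrafilter ℕ) (A : ∀ n : ℕ, Finset (Fin n)) : Prop :=
  ∀ ε : ℝ, 0 < ε → ∀ᶠ n in (U : Filter ℕ), ((A n).card : ℝ) ≤ ε * n

end Pool.Agent.helper69.MU
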