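import Mathlib

set_option autoImplicit false

/-!
# Averages over finite windows
-/

namespace Pool.Agent.helper69.MU

open Filter Topology Finset

section Window

variable {I X : Type} [DecidableEq I]

/-- extension of a function on a window by a constant -/
def ext (W : Finset I) (x0 : X) (u : W → X) : I → X := fun i => if hi : i ∈ W then u ⟨i, hi⟩ else x0

theorem ext_of_mem {W : Finset I} {x0 : X} {u : W → X} {i : I} (h : i ∈ W) :
    ext W x0 u i = u ⟨i, h⟩ := dif_pos h

end Window

/-- a property of pairs (an ultrafilter and windows): if no point lies in `U`-many of the sets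
`R n`, then the density of `R n` tends to `0` along `U` -/
def Fub (U : Ultrafilter ℕ) {I : Type} [DecidableEq I] (W : ℕ → Finset I) : Prop :=
  ∀ (X : Type) [Fintype X] (x0 : X) (R : ℕ → Set (I → X)),
    (∀ n x y, (∀ i ∈ W n, x i = y i) → (x ∈ R n ↔ y ∈ R n)) →
    (∀ z, ¬ ∀ᶠ n in (U : Filter ℕ), z ∈ R n) → ∀ δ : ℝ, 0 < δ →
      ∀ᶠ n in (U : Filter ℕ), (Nat.card {u : W n → X // ext (W n) x0 u ∈ R n} : ℝ) <
        δ * (Fintype.card X : ℝ) ^ (W n).card

/-- a sum bounded by the number of large terms -/
theorem sum_le_of_few {V : Type} [Fintype V] (f : V → ℝ) (a c δ : ℝ) (hc : ∀ v, f v ≤ c)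
    (ha : 0 ≤ a) (hc0 : 0 ≤ c)
    (h : (Nat.card {v : V // a < f v} : ℝ) ≤ δ * Fintype.card V) :
    ∑ v, f v ≤ (a + δ * c) * Fintype.card V := by
  classical
  have h1 : ∀ v, f v ≤ a + if a < f v then c else 0 := by
    intro v
    by_cases hv : a < f v
    · rw [if_pos hv]
      linarith [hc v]
    · rw [if_neg hv]
      linarith [not_lt.mp hv]
  have h2 : ((univ.filter fun v => a < f v).card : ℝ) = (Nat.card {v : V // a < f v} : ℝ) := by
    rw [Nat.card_eq_fintype_card, Fintype.card_subtype]
  calc ∑ v, f v ≤ ∑ v, (a + if a < f v then c else 0) := sum_le_sum fun v _ => h1 v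
    _ = Fintype.card V * a + (univ.filter fun v => a < f v).card * c := by
        rw [sum_add_distrib, sum_const, card_univ, nsmul_eq_mul, ← sum_filter, sum_const,
          nsmul_eq_mul]
    _ = Fintype.card V * a + (Nat.card {v : V // a < f v} : ℝ) * c := by rw [h2]
    _ ≤ Fintype.card V * a + (δ * Fintype.card V) * c := by
        have := mul_le_mul_of_nonneg_right h hc0
        linarith
    _ = (a + δ * c) * Fintype.card V := by ring

/-- Markov's inequality for counting -/
theorem card_le_of_sum {V : Type} [Fintype V] (f : V → ℝ) (hf : ∀ v, 0 ≤ f v) (a : ℝ) (ha : 0 < a)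
    (S : ℝ) (h : ∑ v, f v ≤ S) : (Nat.card {v : V // a < f v} : ℝ) * a ≤ S := by
  classical
  have h2 : ((univ.filter fun v => a < f v).card : ℝ) = (Nat.card {v : V // a < f v} : ℝ) := by
    rw [Nat.card_eq_fintype_card, Fintype.card_subtype]
  rw [← h2, ← nsmul_eq_mul, ← sum_const]
  refine le_trans ?_ h
  calc ∑ v ∈ univ.filter (fun v => a < f v), a ≤ ∑ v ∈ univ.filter (fun v => a < f v), f v :=
        sum_le_sum fun v hv => (mem_filter.mp hv).2.le
    _ ≤ ∑ v, f v := sum_le_sum_of_subset_of_nonneg (filter_subset _ _) fun v _ _ => hf v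

end Pool.Agent.helper69.MU
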