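import Pool.Agent.helper69.MU.Point
import Pool.Agent.helper69.MU.Window
import Pool.Agent.helper34.MU.Blr
import Pool.Agent.helper50.MU.Diag
import Pool.Agent.helper39.MU.Point
import Pool.Agent.helper81.MU.Baire
import Pool.Agent.helper7.MU.Katetov

set_option autoImplicit false

/-!
# Rigidity of metric ultraproducts of symmetric groups
-/

namespace Pool.Agent.helper69.MU

open Filter Topology Finset

theorem blr' : BLR := fun θ ε h1 h2 h3 => Pool.Agent.helper34.MU.blr θ ε h1 h2 h3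

/-- the characteristic function -/
def chi (A : SS) (n : ℕ) : Fin n → ZMod 2 := fun j => if j ∈ A n then 1 else 0

/-- the sequence of sets of a vector -/
def toS (x : IX → ZMod 2) : SS := fun n => univ.filter fun i => x ⟨n, i⟩ = 1

/-- the vector of a sequence of sets -/
def ofS (A : SS) : IX → ZMod 2 := fun p => if p.2 ∈ A p.1 then 1 else 0

theorem zmod2 (a : ZMod 2) : a = 0 ∨ a = 1 := by
  revert a; decide

theorem toS_ofS (A : SS) : toS (ofS A) = A := by
  funext n
  ext i
  unfold toS ofS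
  rw [mem_filter]
  by_cases h : i ∈ A n
  · simp [h]
  · simp [h]

theorem dif_comm {n : ℕ} (a b : Fin n → ZMod 2) : dif a b = dif b a := by
  unfold dif
  congr 2
  ext j
  simp only [mem_filter, mem_univ, true_and]
  exact ne_comm

theorem mem_filter_chi {A B : SS} {n : ℕ} {j : Fin n} :
    chi A n j ≠ chi B n j ↔ j ∈ A n \ B n ∨ j ∈ B n \ A n := by
  unfold chi
  rw [Finset.mem_sdiff, Finset.mem_sdiff]
  by_cases h1 : j ∈ A n <;> by_cases h2 : j ∈ B n <;> simp [h1, h2]

theorem eq0_iff {U : Ultrafilter ℕ} {A B : SS} : Eq0 U A B ↔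
    ∀ ε : ℝ, 0 < ε → ∀ᶠ n in (U : Filter ℕ), dif (chi A n) (chi B n) ≤ ε * n := by
  constructor
  · rintro ⟨h1, h2⟩
    have h3 := Null.union h1 h2
    intro ε hε
    filter_upwards [h3 ε hε] with n hn
    refine le_trans ?_ hn
    unfold dif
    have : (univ.filter fun j => chi A n j ≠ chi B n j) ⊆ A n \ B n ∪ B n \ A n := by
      intro j hj
      rw [mem_filter, mem_filter_chi] at hj
      rw [mem_union]
      exact hj.2
    exact_mod_cast card_le_card this
  · intro h
    constructor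
    · intro ε hε
      filter_upwards [h ε hε] with n hn
      refine le_trans ?_ hn
      unfold dif
      have : A n \ B n ⊆ univ.filter fun j => chi A n j ≠ chi B n j := by
        intro j hj
        rw [mem_filter, mem_filter_chi]
        exact ⟨mem_univ _, Or.inl hj⟩
      exact_mod_cast card_le_card this
    · intro ε hε
      filter_upwards [h ε hε] with n hn
      refine le_trans ?_ hn
      unfold dif
      have : B n \ A n ⊆ univ.filter fun j => chi A n j ≠ chi B n j := by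
        intro j hj
        rw [mem_filter, mem_filter_chi]
        exact ⟨mem_univ _, Or.inr hj⟩
      exact_mod_cast card_le_card this

/-- symmetric difference -/
def sd (A B : SS) : SS := fun n => (A n ∩ (B n)ᶜ) ∪ ((A n)ᶜ ∩ B n)

theorem mem_sd {A B : SS} {n : ℕ} {j : Fin n} : j ∈ sd A B n ↔
    (j ∈ A n ∧ j ∉ B n) ∨ (j ∉ A n ∧ j ∈ B n) := by
  unfold sd
  rw [mem_union, mem_inter, mem_inter, mem_compl, mem_compl]

theorem chi_sd (A B : SS) (n : ℕ) : chi (sd A B) n = chi A n + chi B n := by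
  funext j
  show (if j ∈ sd A B n then (1 : ZMod 2) else 0) =
    (if j ∈ A n then (1 : ZMod 2) else 0) + if j ∈ B n then (1 : ZMod 2) else 0
  simp only [mem_sd]
  by_cases h1 : j ∈ A n <;> by_cases h2 : j ∈ B n <;> simp [h1, h2]
  decide

theorem chi_inter (A B : SS) (n : ℕ) : chi (fun n => A n ∩ B n) n = chi A n * chi B n := by
  funext j
  show (if j ∈ A n ∩ B n then (1 : ZMod 2) else 0) =
    (if j ∈ A n then (1 : ZMod 2) else 0) * if j ∈ B n then (1 : ZMod 2) else 0
  by_cases h1 : j ∈ A n <;> by_cases h2 : j ∈ B n <;> simp [h1, h2]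

theorem chi_compl (A : SS) (n : ℕ) : chi (fun n => (A n)ᶜ) n = chi A n + 1 := by
  funext j
  show (if j ∈ (A n)ᶜ then (1 : ZMod 2) else 0) = (if j ∈ A n then (1 : ZMod 2) else 0) + 1
  by_cases h1 : j ∈ A n <;> simp [h1]
  decide

theorem toS_add (x y : IX → ZMod 2) : toS (x + y) = sd (toS x) (toS y) := by
  funext n
  ext i
  rw [mem_sd]
  unfold toS
  rw [mem_filter, mem_filter, mem_filter]
  show _ ∧ x ⟨n, i⟩ + y ⟨n, i⟩ = 1 ↔ _
  rcases zmod2 (x ⟨n, i⟩) with h1 | h1 <;> rcases zmod2 (y ⟨n, i⟩) with h2 | h2 <;>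
    rw [h1, h2] <;> simp

theorem toS_mul (x y : IX → ZMod 2) : toS (x * y) = fun n => toS x n ∩ toS y n := by
  funext n
  ext i
  rw [mem_inter]
  unfold toS
  rw [mem_filter, mem_filter, mem_filter]
  show _ ∧ x ⟨n, i⟩ * y ⟨n, i⟩ = 1 ↔ _
  rcases zmod2 (x ⟨n, i⟩) with h1 | h1 <;> rcases zmod2 (y ⟨n, i⟩) with h2 | h2 <;>
    rw [h1, h2] <;> simp

theorem toS_one (x : IX → ZMod 2) : toS (x + 1) = fun n => (toS x n)ᶜ := by
  funext n
  ext i
  rw [mem_compl]
  unfold toS
  rw [mem_filter, mem_filter]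
  show _ ∧ x ⟨n, i⟩ + 1 = 1 ↔ _
  rcases zmod2 (x ⟨n, i⟩) with h1 | h1 <;> rw [h1] <;> simp

theorem cast_mem {A : SS} {p : IX} {n : ℕ} (hl : p.1 = n) :
    p.2 ∈ A p.1 ↔ Fin.cast hl p.2 ∈ A n := by
  obtain ⟨l, i⟩ := p
  have hl' : l = n := hl
  subst hl'
  rfl

theorem Eq0.sd {U : Ultrafilter ℕ} {A B A' B' : SS} (h1 : Eq0 U A A') (h2 : Eq0 U B B') :
    Eq0 U (sd A B) (sd A' B') := (h1.inter h2.compl).union (h1.compl.inter h2)

section Ultra

variable {U : Ultrafilter ℕ} (hU : ∀ n : ℕ, ({n} : Set ℕ) ∉ U)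

include hU

variable {α : GU U ≃* GU U} {Θ : SS → SS} (hΘ : Impl α Θ)

include hΘ

theorem th_congr {A B : SS} (h : Eq0 U A B) : Eq0 U (Θ A) (Θ B) :=
  ⟨(th_le hU hΘ).mpr h.1, (th_le hU hΘ).mpr h.2⟩

theorem th_sd (A B : SS) : Eq0 U (Θ (sd A B)) (sd (Θ A) (Θ B)) := by
  refine (th_union hU hΘ (fun n => A n ∩ (B n)ᶜ) fun n => (A n)ᶜ ∩ B n).trans (Eq0.union ?_ ?_)
  · exact (th_inter hU hΘ A fun n => (B n)ᶜ).trans ((Eq0.refl _).inter (th_compl hU hΘ B))
  · exact (th_inter hU hΘ (fun n => (A n)ᶜ) B).trans ((th_compl hU hΘ A).inter (Eq0.refl _))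

/-- the Boolean part is an approximate homomorphism -/
theorem th_H :
    (∀ x y, ∀ ε : ℝ, 0 < ε → ∀ᶠ n in (U : Filter ℕ),
      dif (chi (Θ (toS (x + y))) n) (chi (Θ (toS x)) n + chi (Θ (toS y)) n) ≤ ε * n) ∧
    (∀ x y z, ∀ ε : ℝ, 0 < ε → ∀ᶠ n in (U : Filter ℕ),
      dif (chi (Θ (toS (x * y + z))) n + chi (Θ (toS z)) n)
        (chi (Θ (toS x)) n * chi (Θ (toS y)) n) ≤ ε * n) ∧
    (∀ x, ∀ ε : ℝ, 0 < ε → ∀ᶠ n in (U : Filter ℕ),
      dif (chi (Θ (toS (x + 1))) n) (chi (Θ (toS x)) n + 1) ≤ ε * n) := by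
  let F : (IX → ZMod 2) → ∀ n : ℕ, Fin n → ZMod 2 := fun x => chi (Θ (toS x))
  have H1 : ∀ x y, ∀ ε : ℝ, 0 < ε → ∀ᶠ n in (U : Filter ℕ),
      dif (F (x + y) n) (F x n + F y n) ≤ ε * n := by
    intro x y ε hε
    have h1 := eq0_iff.mp (th_sd hU hΘ (toS x) (toS y)) ε hε
    filter_upwards [h1] with n hn
    rw [chi_sd, ← toS_add] at hn
    exact hn
  have Hm : ∀ x y, ∀ ε : ℝ, 0 < ε → ∀ᶠ n in (U : Filter ℕ),
      dif (F (x * y) n) (F x n * F y n) ≤ ε * n := by
    intro x y ε hε
    have h1 := eq0_iff.mp (th_inter hU hΘ (toS x) (toS y)) ε hε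
    filter_upwards [h1] with n hn
    rw [chi_inter, ← toS_mul] at hn
    exact hn
  have H2 : ∀ x y z, ∀ ε : ℝ, 0 < ε → ∀ᶠ n in (U : Filter ℕ),
      dif (F (x * y + z) n + F z n) (F x n * F y n) ≤ ε * n := by
    intro x y z ε hε
    filter_upwards [H1 (x * y) z (ε / 2) (by positivity), Hm x y (ε / 2) (by positivity)]
      with n h1 h2
    have h3 : dif (F (x * y + z) n + F z n) (F (x * y) n) ≤ ε / 2 * n := by
      have h4 := dif_add (F (x * y + z) n) (F (x * y) n + F z n) (F z n) (F z n)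
      have h5 : F (x * y) n + F z n + F z n = F (x * y) n := by
        funext j
        show F (x * y) n j + F z n j + F z n j = F (x * y) n j
        rw [add_assoc, CharTwo.add_self_eq_zero, add_zero]
      have h6 : dif (F z n) (F z n) = 0 := by
        unfold dif
        simp
      rw [h5, h6, add_zero] at h4
      exact h4.trans h1
    calc dif (F (x * y + z) n + F z n) (F x n * F y n)
        ≤ dif (F (x * y + z) n + F z n) (F (x * y) n) + dif (F (x * y) n) (F x n * F y n) :=
          dif_triangle _ _ _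
      _ ≤ ε / 2 * n + ε / 2 * n := add_le_add h3 h2
      _ = ε * n := by ring
  have H3 : ∀ x, ∀ ε : ℝ, 0 < ε → ∀ᶠ n in (U : Filter ℕ),
      dif (F (x + 1) n) (F x n + 1) ≤ ε * n := by
    intro x ε hε
    have h1 := eq0_iff.mp (th_compl hU hΘ (toS x)) ε hε
    filter_upwards [h1] with n hn
    rw [chi_compl, ← toS_one] at hn
    exact hn
  exact ⟨H1, H2, H3⟩

/-- if the Boolean part is given by maps into the index set then the automorphism is inner -/
theorem inner_of_map (h : ∀ n : ℕ, Fin n → IX)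
    (hh : ∀ x, ∀ ε : ℝ, 0 < ε → ∀ᶠ n in (U : Filter ℕ),
      dif (chi (Θ (toS x)) n) (fun j => x (h n j)) ≤ ε * n)
    (hK : (∀ B : Set ℕ, B ∉ U → ∀ ε : ℝ, 0 < ε →
        ∀ᶠ n in (U : Filter ℕ), (Nat.card {j : Fin n // (h n j).1 ∈ B} : ℝ) ≤ ε * n) →
      ∀ ε : ℝ, 0 < ε → ∀ᶠ n in (U : Filter ℕ),
        (Nat.card {j : Fin n // (h n j).1 ≠ n} : ℝ) ≤ ε * n) : Inner α := by
  classical
  -- the levels
  have hlev := hK (by
    intro B hB ε hε
    obtain ⟨A, hA⟩ : ∃ A : SS, A = fun n => if n ∈ B then univ else ∅ := ⟨_, rfl⟩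
    have hA0 : Eq0 U A fun _ => ∅ := by
      refine ⟨?_, Le0.of_sub fun n => empty_subset _⟩
      refine null_empty.mono' ?_
      have hBc : Bᶜ ∈ U := Ultrafilter.compl_mem_iff_notMem.mpr hB
      filter_upwards [hBc] with n hn i hi
      rw [Finset.mem_sdiff, hA] at hi
      have h1 : n ∉ B := hn
      simp only [h1, if_false] at hi
      exact hi.1
    have h1 := eq0_iff.mp ((th_congr hU hΘ hA0).trans (th_empty hU hΘ)) (ε / 2) (by positivity)
    have h2 := hh (ofS A) (ε / 2) (by positivity)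
    filter_upwards [h1, h2] with n h3 h4
    rw [toS_ofS] at h4
    have h6 : dif (fun j => ofS A (h n j)) (chi (fun _ => ∅) n) ≤ ε * n := by
      calc dif (fun j => ofS A (h n j)) (chi (fun _ => ∅) n)
          ≤ dif (fun j => ofS A (h n j)) (chi (Θ A) n) + dif (chi (Θ A) n) (chi (fun _ => ∅) n) :=
            dif_triangle _ _ _
        _ ≤ ε / 2 * n + ε / 2 * n := add_le_add (by rw [dif_comm]; exact h4) h3
        _ = ε * n := by ring
    refine le_trans ?_ h6
    unfold dif
    rw [Nat.card_eq_fintype_card, Fintype.card_subtype]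
    have : (univ.filter fun j => (h n j).1 ∈ B) ⊆
        univ.filter fun j => ofS A (h n j) ≠ chi (fun _ => ∅) n j := by
      intro j hj
      rw [mem_filter] at hj ⊢
      refine ⟨mem_univ _, ?_⟩
      show (if (h n j).2 ∈ A (h n j).1 then (1 : ZMod 2) else 0) ≠
        if j ∈ (∅ : Finset (Fin n)) then (1 : ZMod 2) else 0
      have h7 : (h n j).2 ∈ A (h n j).1 := by
        rw [hA]
        simp only [hj.2, if_true]
        exact mem_univ _
      rw [if_pos h7, if_neg (notMem_empty _)]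
      exact one_ne_zero
    exact_mod_cast card_le_card this)
  -- the point maps
  let g : ∀ n, Fin n → Fin n := fun n j =>
    if hl : (h n j).1 = n then Fin.cast hl (h n j).2 else j
  apply inner_of_point hU hΘ g
  intro A
  rw [eq0_iff]
  intro ε hε
  filter_upwards [hlev (ε / 2) (by positivity), hh (ofS A) (ε / 2) (by positivity)] with n h1 h2
  rw [toS_ofS] at h2
  have h3 : dif (fun j => ofS A (h n j)) (chi (fun n => univ.filter fun j => g n j ∈ A n) n) ≤
      ε / 2 * n := by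
    refine le_trans ?_ h1
    unfold dif
    rw [Nat.card_eq_fintype_card, Fintype.card_subtype]
    have : (univ.filter fun j => ofS A (h n j) ≠
        chi (fun n => univ.filter fun j => g n j ∈ A n) n j) ⊆
        univ.filter fun j => (h n j).1 ≠ n := by
      intro j hj
      rw [mem_filter] at hj ⊢
      refine ⟨mem_univ _, fun hl => hj.2 ?_⟩
      have hg : g n j = Fin.cast hl (h n j).2 := dif_pos hl
      have hiff : (h n j).2 ∈ A (h n j).1 ↔ g n j ∈ A n := by
        rw [hg]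
        exact cast_mem hl
      show (if (h n j).2 ∈ A (h n j).1 then (1 : ZMod 2) else 0) =
        if j ∈ (univ.filter fun j => g n j ∈ A n) then (1 : ZMod 2) else 0
      by_cases h8 : g n j ∈ A n
      · have h9 : j ∈ univ.filter fun j => g n j ∈ A n := mem_filter.mpr ⟨mem_univ _, h8⟩
        rw [if_pos (hiff.mpr h8), if_pos h9]
      · have h9 : j ∉ univ.filter fun j => g n j ∈ A n := fun h9 => h8 (mem_filter.mp h9).2
        rw [if_neg (fun h10 => h8 (hiff.mp h10)), if_neg h9]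
    exact_mod_cast card_le_card this
  calc dif (chi (Θ A) n) (chi (fun n => univ.filter fun j => g n j ∈ A n) n)
      ≤ dif (chi (Θ A) n) (fun j => ofS A (h n j)) +
        dif (fun j => ofS A (h n j)) (chi (fun n => univ.filter fun j => g n j ∈ A n) n) :=
        dif_triangle _ _ _
    _ ≤ ε / 2 * n + ε / 2 * n := add_le_add h2 h3
    _ = ε * n := by ring


/-- **Windows.**  If the Boolean part has finite windows and the averaging principle holds for
these windows then the automorphism is inner. -/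
theorem inner_of_windows {W : ℕ → Finset IX} (hF : Fub U W)
    (hne : ∀ᶠ n in (U : Filter ℕ), (W n).Nonempty)
    (hW : ∀ n (A B : SS), (∀ p ∈ W n, (p.2 ∈ A p.1 ↔ p.2 ∈ B p.1)) → Θ A n = Θ B n)
    (hK : ∀ l : ∀ n : ℕ, Fin n → ℕ,
      (∀ᶠ n in (U : Filter ℕ), ∀ j, ∃ i, (⟨l n j, i⟩ : IX) ∈ W n) →
      (∀ B : Set ℕ, B ∉ U → ∀ ε : ℝ, 0 < ε →
        ∀ᶠ n in (U : Filter ℕ), (Nat.card {j : Fin n // l n j ∈ B} : ℝ) ≤ ε * n) →
      ∀ ε : ℝ, 0 < ε → ∀ᶠ n in (U : Filter ℕ),
        (Nat.card {j : Fin n // l n j ≠ n} : ℝ) ≤ ε * n) : Inner α := by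
  have hFW : ∀ n x y, (∀ i ∈ W n, x i = y i) → chi (Θ (toS x)) n = chi (Θ (toS y)) n := by
    intro n x y hxy
    have h1 : Θ (toS x) n = Θ (toS y) n := by
      apply hW
      rintro ⟨l, i⟩ hp
      unfold toS
      rw [mem_filter, mem_filter, hxy _ hp]
    unfold chi
    rw [h1]
  obtain ⟨H1, H2, H3⟩ := th_H hU hΘ
  obtain ⟨h, hmem, hh⟩ := exists_point (F := fun x => chi (Θ (toS x))) blr' hF hne hFW H1 H2 H3
  exact inner_of_map hU hΘ h hh fun hB =>
    hK (fun n j => (h n j).1) (hmem.mono fun n hn j => ⟨(h n j).2, hn j⟩) hB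

omit hΘ in
/-- the averaging principle for selective ultrafilters -/
theorem fub_selective (hs : Selective U) (W : ℕ → Finset IX) : Fub U W := by
  intro X _ x0 R hW hno δ hδ
  by_contra hcon
  have : Nonempty X := ⟨x0⟩
  have h1 : ∀ᶠ n in (U : Filter ℕ), ¬ ((Nat.card {u : W n → X // ext (W n) x0 u ∈ R n} : ℝ) <
      δ * (Fintype.card X : ℝ) ^ (W n).card) := Ultrafilter.eventually_not.mpr hcon
  obtain ⟨y, hy⟩ := Pool.Agent.helper39.MU.point_in_many_of_diag U
    (fun B hB => Pool.Agent.helper50.MU.Selective.diag hU hs B hB) R W hW x0 δ hδ (by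
      filter_upwards [h1] with n hn
      refine (not_lt.mp hn).trans (le_of_eq ?_)
      unfold ext
      congr!)
  exact hno y hy

omit hΘ hU in
/-- the averaging principle for windows consisting of one level -/
theorem fub_level : Fub U fun n => ({n} : Finset ℕ).sigma fun l => (univ : Finset (Fin l)) := by
  classical
  intro X _ x0 R hW hno δ hδ
  have hX : 0 < Fintype.card X := Fintype.card_pos_iff.mpr ⟨x0⟩
  by_contra hcon
  have h1 := Ultrafilter.eventually_not.mpr hcon
  have h2 : ∀ n, (R n).Nonempty → ∃ z, z ∈ R n := fun n h => h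
  have hne0 : Nonempty (IX → X) := ⟨fun _ => x0⟩
  choose! z hz using h2
  apply hno fun p => z p.1 p
  filter_upwards [h1] with n hn
  have hne : (R n).Nonempty := by
    by_contra hemp
    rw [Set.not_nonempty_iff_eq_empty] at hemp
    apply hn
    have h3 : Nat.card {u : (({n} : Finset ℕ).sigma fun l => (univ : Finset (Fin l)) :
        Finset IX) → X // ext _ x0 u ∈ R n} = 0 := by
      rw [hemp]
      have : IsEmpty {u : (({n} : Finset ℕ).sigma fun l => (univ : Finset (Fin l)) :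
        Finset IX) → X // ext _ x0 u ∈ (∅ : Set (IX → X))} := ⟨fun u => u.2⟩
      exact Nat.card_of_isEmpty
    rw [h3, Nat.cast_zero]
    have : (0 : ℝ) < Fintype.card X := by exact_mod_cast hX
    positivity
  refine (hW n _ _ ?_).mp (hz n hne)
  rintro ⟨l, i⟩ hi
  rw [mem_sigma, mem_singleton] at hi
  have hl : l = n := hi.1
  subst hl
  rfl

end Ultra

/-- the automorphism `α` has a Baire measurable lift -/
def BaireLift {U : Ultrafilter ℕ} (α : GU U ≃* GU U) : Prop :=
  ∃ Φ : PS → PS,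
    (∀ (n : ℕ) (σ : Equiv.Perm (Fin n)), @BaireMeasurableSet PS
      (@Pi.topologicalSpace ℕ (fun n => Equiv.Perm (Fin n)) fun _ => ⊥) {x | Φ x n = σ}) ∧
    ∀ x : PS, α (cls U x) = cls U (Φ x)

section Main

variable {U : Ultrafilter ℕ} (hU : ∀ n : ℕ, ({n} : Set ℕ) ∉ U)

include hU

omit hU in
theorem Inner.coordinatewise {α : GU U ≃* GU U} (h : Inner α) : Coordinatewise α := by
  obtain ⟨g, hg⟩ := h
  obtain ⟨g, rfl⟩ := QuotientGroup.mk_surjective g
  exact ⟨fun n σ => g n * σ * (g n)⁻¹, fun x => hg (cls U x)⟩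

omit hU in
theorem Coordinatewise.baireLift {α : GU U ≃* GU U} (h : Coordinatewise α) : BaireLift α := by
  obtain ⟨φ, hφ⟩ := h
  refine ⟨fun x n => φ n (x n), fun n σ => ?_, hφ⟩
  let t : ∀ n : ℕ, TopologicalSpace (Equiv.Perm (Fin n)) := fun _ => ⊥
  have : ∀ n : ℕ, DiscreteTopology (Equiv.Perm (Fin n)) := fun _ => ⟨rfl⟩
  have h1 : IsOpen {x : PS | φ n (x n) = σ} := by
    have h2 : {x : PS | φ n (x n) = σ} = (fun x : PS => x n) ⁻¹' {τ | φ n τ = σ} := rfl
    rw [h2]
    exact (isOpen_discrete _).preimage (continuous_apply n)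
  exact h1.baireMeasurableSet

/-- **Coordinatewise automorphisms are inner.** -/
theorem inner_of_coordinatewise {α : GU U ≃* GU U} (h : Coordinatewise α) : Inner α := by
  classical
  obtain ⟨φ, hφ⟩ := h
  let Θ : SS → SS := fun A n => univ.filter fun i => φ n (iot n (A n)) i ≠ i
  have hΘ : Impl α Θ := by
    intro A y hy
    rw [hφ] at hy
    have h1 := Sp_eq hU hy
    exact h1.symm
  refine inner_of_windows hU hΘ
    (W := fun n => ({n} : Finset ℕ).sigma fun l => (univ : Finset (Fin l))) fub_level ?_ ?_ ?_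
  · filter_upwards [eventually_ge hU 1] with n hn
    exact ⟨⟨n, ⟨0, hn⟩⟩, by rw [mem_sigma]; exact ⟨mem_singleton_self _, mem_univ _⟩⟩
  · intro n A B hAB
    have h1 : A n = B n := by
      ext i
      exact hAB ⟨n, i⟩ (by rw [mem_sigma]; exact ⟨mem_singleton_self _, mem_univ _⟩)
    show (univ.filter fun i => φ n (iot n (A n)) i ≠ i) =
      univ.filter fun i => φ n (iot n (B n)) i ≠ i
    rw [h1]
  · intro l hl _ ε hε
    filter_upwards [hl] with n hn
    have h1 : Nat.card {j : Fin n // l n j ≠ n} = 0 := by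
      have : IsEmpty {j : Fin n // l n j ≠ n} := ⟨fun j => by
        obtain ⟨i, hi⟩ := hn j.1
        rw [mem_sigma, mem_singleton] at hi
        exact j.2 hi.1⟩
      exact Nat.card_of_isEmpty
    rw [h1, Nat.cast_zero]
    positivity

/-- **Selective ultrafilters: automorphisms with a Baire measurable lift are inner.** -/
theorem inner_of_baireLift (hs : Selective U) {α : GU U ≃* GU U} (h : BaireLift α) : Inner α := by
  classical
  obtain ⟨Φ, hΦ1, hΦ⟩ := h
  let t : ∀ n : ℕ, TopologicalSpace (Equiv.Perm (Fin n)) := fun _ => ⊥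
  have : ∀ n : ℕ, DiscreteTopology (Equiv.Perm (Fin n)) := fun _ => ⟨rfl⟩
  obtain ⟨A, hA, s, hwin⟩ := Pool.Agent.helper81.MU.baire_filler
    (X := fun n => Equiv.Perm (Fin n)) (Y := fun n => Equiv.Perm (Fin n)) U Φ hΦ1
  choose m hm using hwin
  let md : PS → PS := fun x l => if l ∈ A then x l else s l
  have hmd : ∀ x, cls U (md x) = cls U x := by
    intro x
    rw [cls_eq hU]
    refine null_empty.mono' ?_
    filter_upwards [hA] with n hn i hi
    rw [mem_Df] at hi
    exact absurd (by show (if n ∈ A then x n else s n) i = x n i; rw [if_pos hn]) hi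
  let Θ : SS → SS := fun B n => univ.filter fun i => Φ (md (ioS B)) n i ≠ i
  have hΘ : Impl α Θ := by
    intro B y hy
    rw [← hmd (ioS B), hΦ] at hy
    exact (Sp_eq hU hy).symm
  refine inner_of_windows hU hΘ
    (W := fun n => (range (max (m n) (n + 1))).sigma fun l => (univ : Finset (Fin l)))
    (fub_selective hU hs _) ?_ ?_ ?_
  · filter_upwards [eventually_ge hU 1] with n hn
    refine ⟨⟨n, ⟨0, hn⟩⟩, ?_⟩
    rw [mem_sigma, mem_range]
    exact ⟨lt_of_lt_of_le (Nat.lt_succ_self n) (le_max_right _ _), mem_univ _⟩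
  · intro n B B' hBB
    have h1 : ∀ l, l < m n → B l = B' l := by
      intro l hl
      ext i
      refine hBB ⟨l, i⟩ ?_
      rw [mem_sigma, mem_range]
      exact ⟨lt_of_lt_of_le hl (le_max_left _ _), mem_univ _⟩
    have h2 : Φ (md (ioS B)) n = Φ (md (ioS B')) n := by
      refine hm n (ioS B) (ioS B') ?_ (md (ioS B)) (md (ioS B')) (fun l hl => if_pos hl)
        (fun l hl => if_neg hl) (fun l hl => if_pos hl) (fun l hl => if_neg hl)
      intro l hl
      show iot l (B l) = iot l (B' l)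
      rw [h1 l hl]
    show (univ.filter fun i => Φ (md (ioS B)) n i ≠ i) =
      univ.filter fun i => Φ (md (ioS B')) n i ≠ i
    rw [h2]
  · intro l _ hl
    exact Pool.Agent.helper7.MU.katetov hU hs l hl

/-- **Main theorem.** -/
theorem main : (∀ α : GU U ≃* GU U, Inner α ↔ Coordinatewise α) ∧
    (Selective U → ∀ α : GU U ≃* GU U, Inner α ↔ BaireLift α) :=
  ⟨fun _ => ⟨Inner.coordinatewise, inner_of_coordinatewise hU⟩,
    fun hs _ => ⟨fun h => h.coordinatewise.baireLift, inner_of_baireLift hU hs⟩⟩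

end Main

end Pool.Agent.helper69.MU
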