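import Pool.Agent.helper69.MU.Defs

set_option autoImplicit false

/-!
# Null sequences of sets, independent sets
-/

namespace Pool.Agent.helper69.MU

open Filter Topology Finset

section Null

variable {U : Ultrafilter ℕ}

theorem Null.of_le {A B : ∀ n : ℕ, Finset (Fin n)} (h : Null U B) (c : ℕ)
    (hc : ∀ᶠ n in (U : Filter ℕ), (A n).card ≤ c * (B n).card) : Null U A := by
  intro ε hε
  have hc0 : (0 : ℝ) < c + 1 := by positivity
  filter_upwards [h (ε / (c + 1)) (by positivity), hc] with n h1 h2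
  have h3 : ((A n).card : ℝ) ≤ c * (B n).card := by exact_mod_cast h2
  have h4 : (0 : ℝ) ≤ (B n).card := Nat.cast_nonneg _
  calc ((A n).card : ℝ) ≤ c * (B n).card := h3
    _ ≤ (c + 1) * (B n).card := by nlinarith
    _ ≤ (c + 1) * (ε / (c + 1) * n) := mul_le_mul_of_nonneg_left h1 hc0.le
    _ = ε * n := by field_simp

theorem Null.mono' {A B : ∀ n : ℕ, Finset (Fin n)} (h : Null U B)
    (hc : ∀ᶠ n in (U : Filter ℕ), A n ⊆ B n) : Null U A :=
  h.of_le 1 (hc.mono fun n hn => by rw [one_mul]; exact card_le_card hn)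

theorem Null.mono {A B : ∀ n : ℕ, Finset (Fin n)} (h : Null U B) (hc : ∀ n, A n ⊆ B n) :
    Null U A := h.mono' (Eventually.of_forall hc)

theorem Null.union {A B : ∀ n : ℕ, Finset (Fin n)} (hA : Null U A) (hB : Null U B) :
    Null U fun n => A n ∪ B n := by
  intro ε hε
  filter_upwards [hA (ε / 2) (by positivity), hB (ε / 2) (by positivity)] with n h1 h2
  have h3 : ((A n ∪ B n).card : ℝ) ≤ (A n).card + (B n).card := by exact_mod_cast card_union_le _ _
  calc ((A n ∪ B n).card : ℝ) ≤ (A n).card + (B n).card := h3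
    _ ≤ ε / 2 * n + ε / 2 * n := add_le_add h1 h2
    _ = ε * n := by ring

theorem Null.sub_union {A B C : ∀ n : ℕ, Finset (Fin n)} (hA : Null U A) (hB : Null U B)
    (h : ∀ n, C n ⊆ A n ∪ B n) : Null U C := (hA.union hB).mono h

theorem null_empty : Null U fun n => (∅ : Finset (Fin n)) := by
  intro ε hε
  refine Eventually.of_forall fun n => ?_
  rw [card_empty, Nat.cast_zero]
  positivity

theorem not_null {A : ∀ n : ℕ, Finset (Fin n)} (h : ¬ Null U A) :
    ∃ ε : ℝ, 0 < ε ∧ ∀ᶠ n in (U : Filter ℕ), ε * n < (A n).card := by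
  unfold Null at h
  push Not at h
  obtain ⟨ε, hε, h⟩ := h
  exact ⟨ε, hε, h⟩

theorem eventually_ge (hU : ∀ n : ℕ, ({n} : Set ℕ) ∉ U) (k : ℕ) :
    ∀ᶠ n in (U : Filter ℕ), k ≤ n := by
  have h : (⋃ i ∈ Set.Iio k, ({i} : Set ℕ)) ∉ U := by
    intro hmem
    have := (Ultrafilter.finite_biUnion_mem_iff (Set.finite_Iio k)).mp hmem
    obtain ⟨i, _, hi⟩ := this
    exact hU i hi
  have h2 := Ultrafilter.compl_mem_iff_notMem.mpr h
  filter_upwards [h2] with n hn
  by_contra hlt
  push Not at hlt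
  apply hn
  simp only [Set.mem_Iio, Set.mem_iUnion, Set.mem_singleton_iff, exists_prop, exists_eq_right']
  exact hlt

theorem not_null_large (hU : ∀ n : ℕ, ({n} : Set ℕ) ∉ U) {A : ∀ n : ℕ, Finset (Fin n)}
    (h : ¬ Null U A) (k : ℕ) : ∀ᶠ n in (U : Filter ℕ), k ≤ (A n).card := by
  obtain ⟨ε, hε, h⟩ := not_null h
  obtain ⟨m, hm⟩ := exists_nat_gt ((k : ℝ) / ε)
  filter_upwards [h, eventually_ge hU m] with n h1 h2
  have h3 : (m : ℝ) ≤ n := by exact_mod_cast h2
  rw [div_lt_iff₀ hε] at hm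
  have h4 : (k : ℝ) < (A n).card := by nlinarith
  exact_mod_cast h4.le

theorem null_of_bounded (hU : ∀ n : ℕ, ({n} : Set ℕ) ∉ U) {A : ∀ n : ℕ, Finset (Fin n)} (k : ℕ)
    (h : ∀ᶠ n in (U : Filter ℕ), (A n).card ≤ k) : Null U A := by
  by_contra hn
  have h1 := not_null_large hU hn (k + 1)
  obtain ⟨n, h2, h3⟩ := (h.and h1).exists
  omega

end Null

/-- the points where `x` and `y` differ -/
def Df (x y : PS) : ∀ n : ℕ, Finset (Fin n) := fun n => univ.filter fun i => x n i ≠ y n i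

/-- the support of `x` -/
def Sp (x : PS) : ∀ n : ℕ, Finset (Fin n) := fun n => univ.filter fun i => x n i ≠ i

theorem mem_Df {x y : PS} {n : ℕ} {i : Fin n} : i ∈ Df x y n ↔ x n i ≠ y n i := by
  simp [Df]

theorem mem_Sp {x : PS} {n : ℕ} {i : Fin n} : i ∈ Sp x n ↔ x n i ≠ i := by
  simp [Sp]

theorem null_iff_tendsto {U : Ultrafilter ℕ} (hU : ∀ n : ℕ, ({n} : Set ℕ) ∉ U)
    {A : ∀ n : ℕ, Finset (Fin n)} :
    Null U A ↔ Tendsto (fun n : ℕ => ((A n).card : ℝ) / n) U (𝓝 0) := by
  rw [Metric.tendsto_nhds]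
  constructor
  · intro h ε hε
    filter_upwards [h (ε / 2) (by positivity), eventually_ge hU 1] with n h1 h2
    have h3 : (0 : ℝ) < n := by exact_mod_cast h2
    rw [Real.dist_eq, sub_zero, abs_of_nonneg (by positivity), div_lt_iff₀ h3]
    nlinarith
  · intro h ε hε
    filter_upwards [h ε hε, eventually_ge hU 1] with n h1 h2
    have h3 : (0 : ℝ) < n := by exact_mod_cast h2
    rw [Real.dist_eq, sub_zero, abs_of_nonneg (by positivity), div_lt_iff₀ h3] at h1
    exact h1.le

theorem mem_NU_iff {U : Ultrafilter ℕ} (hU : ∀ n : ℕ, ({n} : Set ℕ) ∉ U) {x : PS} :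
    x ∈ NU U ↔ Null U (Sp x) := by
  rw [mem_NU, null_iff_tendsto hU]
  rfl

theorem cls_eq {U : Ultrafilter ℕ} (hU : ∀ n : ℕ, ({n} : Set ℕ) ∉ U) {x y : PS} :
    cls U x = cls U y ↔ Null U (Df x y) := by
  rw [QuotientGroup.eq, mem_NU_iff hU]
  have h : ∀ n, (Sp (x⁻¹ * y) n) = Df x y n := by
    intro n
    ext i
    rw [mem_Sp, mem_Df]
    show (x n)⁻¹ (y n i) ≠ i ↔ x n i ≠ y n i
    rw [not_iff_not, Equiv.Perm.inv_eq_iff_eq, eq_comm]
  constructor
  · exact fun h1 => h1.mono fun n => (h n).ge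
  · exact fun h1 => h1.mono fun n => (h n).le

/-- independent sets for a finite family of permutations without fixed points in `D` -/
theorem exists_indep {α : Type*} [DecidableEq α] (D : Finset α) (F : Finset (Equiv.Perm α))
    (hF : ∀ f ∈ F, ∀ i ∈ D, f i ≠ i) :
    ∃ T ⊆ D, (∀ f ∈ F, ∀ i ∈ T, f i ∉ T) ∧ D.card ≤ (2 * F.card + 1) * T.card := by
  obtain ⟨T, hT, hmax⟩ := exists_max_image
    (D.powerset.filter fun T => ∀ f ∈ F, ∀ i ∈ T, f i ∉ T) card ⟨∅, by simp⟩
  rw [mem_filter, mem_powerset] at hT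
  refine ⟨T, hT.1, hT.2, ?_⟩
  have hsub : D ⊆ T ∪ F.biUnion fun f => T.image f ∪ T.image (f⁻¹ : Equiv.Perm α) := by
    intro i hi
    by_contra hcon
    simp only [mem_union, mem_biUnion, mem_image, not_or, not_exists, not_and] at hcon
    obtain ⟨hiT, hno⟩ := hcon
    have h1 : insert i T ∈ D.powerset.filter fun T => ∀ f ∈ F, ∀ i ∈ T, f i ∉ T := by
      rw [mem_filter, mem_powerset]
      refine ⟨insert_subset hi hT.1, fun f hf j hj hfj => ?_⟩
      rw [mem_insert] at hj hfj
      rcases hj with rfl | hj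
      · rcases hfj with hfj | hfj
        · exact hF f hf j hi hfj
        · exact (hno f hf).2 _ hfj (f.symm_apply_apply j)
      · rcases hfj with hfj | hfj
        · exact (hno f hf).1 j hj hfj
        · exact hT.2 f hf j hj hfj
    have h2 := hmax _ h1
    rw [card_insert_of_notMem hiT] at h2
    omega
  calc D.card ≤ (T ∪ F.biUnion fun f => T.image f ∪ T.image (f⁻¹ : Equiv.Perm α)).card := card_le_card hsub
    _ ≤ T.card + (F.biUnion fun f => T.image f ∪ T.image (f⁻¹ : Equiv.Perm α)).card := card_union_le _ _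
    _ ≤ T.card + F.card * (2 * T.card) := by
        apply Nat.add_le_add_left
        apply card_biUnion_le_card_mul
        intro f _
        calc (T.image f ∪ T.image (f⁻¹ : Equiv.Perm α)).card ≤ (T.image f).card + (T.image (f⁻¹ : Equiv.Perm α)).card :=
              card_union_le _ _
          _ ≤ T.card + T.card := Nat.add_le_add card_image_le card_image_le
          _ = 2 * T.card := by ring
    _ = (2 * F.card + 1) * T.card := by ring

end Pool.Agent.helper69.MU
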