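import Pool.Agent.helper69.MU.Theta

set_option autoImplicit false

/-!
# Automorphisms whose Boolean part is given by point maps are inner
-/

namespace Pool.Agent.helper69.MU

open Filter Topology Finset

/-- a map whose range is large agrees with a permutation except on a small set -/
theorem exists_perm {n : ℕ} (h : Fin n → Fin n) : ∃ g : Equiv.Perm (Fin n),
    (univ.filter fun j => g j ≠ h j).card ≤ (univ.filter fun i => ∀ j, h j ≠ i).card := by
  classical
  -- a set of representatives of the fibres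
  have hT : ∃ T : Finset (Fin n), Set.InjOn h T ∧ T.image h = univ.image h := by
    obtain ⟨T, -, hT2⟩ := exists_subset_card_eq (s := (∅ : Finset (Fin n))) (n := 0) (by simp)
    have : ∀ i ∈ univ.image h, ∃ j, h j = i := by
      intro i hi
      obtain ⟨j, _, hj⟩ := mem_image.mp hi
      exact ⟨j, hj⟩
    choose! s hs using this
    refine ⟨(univ.image h).image s, ?_, ?_⟩
    · intro a ha b hb hab
      obtain ⟨i, hi, rfl⟩ := mem_image.mp (mem_coe.mp ha)
      obtain ⟨i', hi', rfl⟩ := mem_image.mp (mem_coe.mp hb)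
      rw [hs i hi, hs i' hi'] at hab
      rw [hab]
    · ext i
      constructor
      · intro hi
        obtain ⟨j, _, hj⟩ := mem_image.mp hi
        exact mem_image.mpr ⟨j, mem_univ _, hj⟩
      · intro hi
        exact mem_image.mpr ⟨s i, mem_image_of_mem _ hi, hs i hi⟩
  obtain ⟨T, hT1, hT2⟩ := hT
  obtain ⟨g, hg⟩ := Finset.exists_equiv_extend_of_card_eq (α := Fin n) (t := (univ : Finset (Fin n)))
    (by simp) (s := T) (f := h) (subset_univ _) hT1
  let e : Equiv.Perm (Fin n) := g.trans (Equiv.subtypeUnivEquiv fun _ => mem_univ _)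
  have he : ∀ j ∈ T, e j = h j := fun j hj => hg j hj
  refine ⟨e, ?_⟩
  have h1 : (univ.filter fun j => e j ≠ h j).card ≤ Tᶜ.card := by
    apply card_le_card
    intro j hj
    rw [mem_filter] at hj
    rw [mem_compl]
    exact fun hjT => hj.2 (he j hjT)
  have h2 : (univ.filter fun i => ∀ j, h j ≠ i) = (univ.image h)ᶜ := by
    ext i
    simp
  rw [h2, ← hT2]
  refine h1.trans ?_
  rw [card_compl, card_compl, card_image_of_injOn hT1]

section Ultra

variable {U : Ultrafilter ℕ} (hU : ∀ n : ℕ, ({n} : Set ℕ) ∉ U)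

include hU

/-- a sequence of permutations acting trivially on all sets is trivial -/
theorem mem_NU_of_im {z : PS} (h : ∀ A : SS, Le0 U (im z A) A) : Null U (Sp z) := by
  have hT : ∀ n, ∃ T : Finset (Fin n), T ⊆ Sp z n ∧ (∀ i ∈ T, z n i ∉ T) ∧
      (Sp z n).card ≤ 3 * T.card := by
    intro n
    obtain ⟨T, hT1, hT2, hT3⟩ := exists_indep (Sp z n) {z n} (by
      intro f hf i hi
      rw [mem_singleton] at hf
      rw [hf]
      exact mem_Sp.mp hi)
    exact ⟨T, hT1, fun i hi => hT2 (z n) (mem_singleton_self _) i hi, by simpa using hT3⟩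
  choose T hT1 hT2 hT3 using hT
  refine Null.of_le (h T) 3 (Eventually.of_forall fun n => (hT3 n).trans
    (Nat.mul_le_mul_left _ ?_))
  refine card_le_card_of_injOn (fun i => z n i) ?_ fun a _ b _ hab => (z n).injective hab
  intro i hi
  rw [mem_coe] at hi ⊢
  show z n i ∈ im z T n \ T n
  rw [Finset.mem_sdiff]
  exact ⟨mem_image_of_mem _ hi, hT2 n i hi⟩

variable {α : GU U ≃* GU U} {Θ : SS → SS} (hΘ : Impl α Θ)

include hΘ

/-- if `Θ` is given by point maps then `α` is inner -/
theorem inner_of_point (h : ∀ n, Fin n → Fin n)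
    (hh : ∀ A : SS, Eq0 U (Θ A) fun n => univ.filter fun j => h n j ∈ A n) : Inner α := by
  -- the range is large
  have hC : Null U fun n => univ.filter fun i => ∀ j, h n j ≠ i := by
    have h1 := hh fun n => univ.filter fun i => ∀ j, h n j ≠ i
    have h2 : (fun n => univ.filter fun j =>
        h n j ∈ (univ.filter fun i => ∀ j, h n j ≠ i : Finset (Fin n))) =
        fun n => (∅ : Finset (Fin n)) := by
      funext n
      rw [filter_eq_empty_iff]
      intro j _ hj
      exact (mem_filter.mp hj).2 j rfl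
    rw [h2] at h1
    have h3 := (th_le hU hΘ).mp (h1.1.trans (th_empty hU hΘ).2)
    exact Null.mono h3 fun n i hi => Finset.mem_sdiff.mpr ⟨hi, notMem_empty i⟩
  choose g hg using fun n => exists_perm (h n)
  have hgn : Null U fun n => univ.filter fun j => g n j ≠ h n j :=
    hC.of_le 1 (Eventually.of_forall fun n => by rw [one_mul]; exact hg n)
  have hgΘ : ∀ A : SS, Eq0 U (Θ A) (im (g : PS)⁻¹ A) := by
    intro A
    refine (hh A).trans ⟨?_, ?_⟩
    · refine hgn.mono fun n j hj => ?_
      rw [Finset.mem_sdiff, mem_filter, mem_im] at hj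
      rw [mem_filter]
      refine ⟨mem_univ _, fun h1 => hj.2 ?_⟩
      show ((g n)⁻¹)⁻¹ j ∈ A n
      rw [inv_inv, h1]
      exact hj.1.2
    · refine hgn.mono fun n j hj => ?_
      rw [Finset.mem_sdiff, mem_filter, mem_im] at hj
      rw [mem_filter]
      refine ⟨mem_univ _, fun h1 => hj.2 ⟨mem_univ _, ?_⟩⟩
      have h2 : ((g n)⁻¹)⁻¹ j ∈ A n := hj.1
      rw [inv_inv, h1] at h2
      exact h2
  refine ⟨cls U (g : PS)⁻¹, fun x => ?_⟩
  obtain ⟨x, rfl⟩ := QuotientGroup.mk_surjective x
  obtain ⟨x', hx'⟩ := exists_lift (α (cls U x))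
  have hkey : ∀ A : SS, Le0 U (im ((g : PS) * x' * (g : PS)⁻¹ * x⁻¹) A) A := by
    intro A
    have h1 := th_im hU hΘ hx' (im x⁻¹ A)
    have h2 : im x (im x⁻¹ A) = A := by
      funext n
      ext i
      rw [mem_im, mem_im]
      show ((x n)⁻¹)⁻¹ ((x n)⁻¹ i) ∈ A n ↔ _
      rw [inv_inv]
      have : x n ((x n)⁻¹ i) = i := (x n).apply_symm_apply i
      rw [this]
    rw [h2] at h1
    -- `g⁻¹ A ≈ x' g⁻¹ x⁻¹ A`
    have h3 : Le0 U (im x' (im (g : PS)⁻¹ (im x⁻¹ A))) (im (g : PS)⁻¹ A) :=
      ((hgΘ _).symm.im x').1.trans (h1.2.trans (hgΘ A).1)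
    have h4 := h3.im (g : PS)
    have h5 : im (g : PS) (im (g : PS)⁻¹ A) = A := by
      funext n
      ext i
      rw [mem_im, mem_im]
      show ((g n)⁻¹)⁻¹ ((g n)⁻¹ i) ∈ A n ↔ _
      rw [inv_inv]
      have : g n ((g n)⁻¹ i) = i := (g n).apply_symm_apply i
      rw [this]
    rw [h5] at h4
    have h6 : im (g : PS) (im x' (im (g : PS)⁻¹ (im x⁻¹ A))) =
        im ((g : PS) * x' * (g : PS)⁻¹ * x⁻¹) A := by
      funext n
      unfold im
      rw [image_image, image_image, image_image]
      rfl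
    rwa [h6] at h4
  have hz := mem_NU_of_im hU hkey
  have h7 : cls U ((g : PS) * x' * (g : PS)⁻¹ * x⁻¹) = 1 := by
    have h8 : cls U ((g : PS) * x' * (g : PS)⁻¹ * x⁻¹) = cls U 1 := by
      rw [cls_eq hU]
      exact hz.mono fun n i hi => by
        rw [mem_Df] at hi
        rw [mem_Sp]
        exact hi
    exact h8
  have h9 : cls U (g : PS) * cls U x' * (cls U (g : PS))⁻¹ * (cls U x)⁻¹ = 1 := h7
  show α (cls U x) = (cls U (g : PS))⁻¹ * cls U x * ((cls U (g : PS))⁻¹)⁻¹
  rw [← hx', ← mul_inv_eq_one.mp h9]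
  group

end Ultra

end Pool.Agent.helper69.MU
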