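import Pool.Agent.helper69.MU.Null

set_option autoImplicit false

/-!
# Supports are definable in the metric ultraproduct

For an involution `p` of the group, `W p` is the set of elements supported by the support of `p`.
-/

namespace Pool.Agent.helper69.MU

open Filter Topology Finset

section Group

variable {G : Type*} [Group G]

/-- elements of order at most two of the centraliser of `p` which commute with their conjugates -/
def Uf (p : G) : Set G :=
  {u | u * p = p * u ∧ u * u = 1 ∧ ∀ v, v * p = p * v → u * (v * u * v⁻¹) = (v * u * v⁻¹) * u}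

/-- the centraliser of `Uf p` -/
def Vf (p : G) : Set G := {v | ∀ u ∈ Uf p, u * v = v * u}

/-- the centraliser of the squares of `Vf p` -/
def Wf (p : G) : Set G := {w | ∀ v ∈ Vf p, w * (v * v) = (v * v) * w}

theorem Uf_map {H : Type*} [Group H] (α : G ≃* H) {p u : G} : α u ∈ Uf (α p) ↔ u ∈ Uf p := by
  constructor
  · rintro ⟨h1, h2, h3⟩
    refine ⟨α.injective (by rw [map_mul, map_mul, h1]), α.injective (by rw [map_mul, h2, map_one]),
      fun v hv => α.injective ?_⟩
    simpa using h3 (α v) (by rw [← map_mul, ← map_mul, hv])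
  · rintro ⟨h1, h2, h3⟩
    refine ⟨by rw [← map_mul, ← map_mul, h1], by rw [← map_mul, h2, map_one], fun v hv => ?_⟩
    obtain ⟨v, rfl⟩ := α.surjective v
    have := congrArg α (h3 v (α.injective (by rw [map_mul, map_mul, hv])))
    simpa using this

theorem Vf_map {H : Type*} [Group H] (α : G ≃* H) {p v : G} : α v ∈ Vf (α p) ↔ v ∈ Vf p := by
  constructor
  · intro h u hu
    exact α.injective (by rw [map_mul, map_mul]; exact h (α u) ((Uf_map α).mpr hu))
  · intro h u hu
    obtain ⟨u, rfl⟩ := α.surjective u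
    rw [← map_mul, ← map_mul, h u ((Uf_map α).mp hu)]

theorem Wf_map {H : Type*} [Group H] (α : G ≃* H) {p w : G} : α w ∈ Wf (α p) ↔ w ∈ Wf p := by
  constructor
  · intro h v hv
    exact α.injective (by simpa using h (α v) ((Vf_map α).mpr hv))
  · intro h v hv
    obtain ⟨v, rfl⟩ := α.surjective v
    have := congrArg α (h v ((Vf_map α).mp hv))
    simpa using this

end Group

/-- an exact involution with prescribed values -/
theorem exists_involution {n : ℕ} (σ : Equiv.Perm (Fin n)) : ∃ τ : Equiv.Perm (Fin n),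
    (∀ i, τ (τ i) = i) ∧ ∀ i, σ (σ i) = i → τ i = σ i := by
  let f : Fin n → Fin n := fun i => if σ (σ i) = i then σ i else i
  have hf : Function.Involutive f := by
    intro i
    by_cases h : σ (σ i) = i
    · have h1 : f i = σ i := if_pos h
      have h2 : σ (σ (σ i)) = σ i := by rw [h]
      have h3 : f (σ i) = σ (σ i) := if_pos h2
      rw [h1, h3, h]
    · have h1 : f i = i := if_neg h
      rw [h1, h1]
  refine ⟨hf.toPerm f, fun i => hf i, fun i h => ?_⟩
  show f i = σ i
  exact if_pos h

section Ultra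

variable {U : Ultrafilter ℕ} (hU : ∀ n : ℕ, ({n} : Set ℕ) ∉ U)

include hU

/-- elements of order two have exact involutions as representatives -/
theorem exists_rep {x : PS} (h : cls U x * cls U x = 1) : ∃ y : PS, cls U y = cls U x ∧
    ∀ n i, y n (y n i) = i := by
  choose τ hτ1 hτ2 using fun n => exists_involution (x n)
  refine ⟨τ, ?_, hτ1⟩
  have h1 : cls U (x * x) = cls U 1 := h
  rw [cls_eq hU] at h1 ⊢
  refine h1.mono fun n i hi => ?_
  rw [mem_Df] at hi ⊢
  intro h2
  exact hi (hτ2 n i h2)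

/-- `u ∈ Uf p` maps almost every `i` to `i` or `p i` -/
theorem Uf_sub {π φ : PS} (hπ : ∀ n i, π n (π n i) = i) (hφ : ∀ n i, φ n (φ n i) = i)
    (h : cls U φ ∈ Uf (cls U π)) :
    Null U fun n => univ.filter fun i => φ n i ≠ i ∧ φ n i ≠ π n i := by
  by_contra hnull
  obtain ⟨hc, -, hconj⟩ := h
  have hc' : Null U (Df (φ * π) (π * φ)) := (cls_eq hU).mp hc
  -- the good part
  let D : ∀ n, Finset (Fin n) := fun n =>
    univ.filter fun i => φ n i ≠ i ∧ φ n i ≠ π n i ∧ φ n (π n i) = π n (φ n i)
  have hD : ¬ Null U D := by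
    intro hD
    apply hnull
    refine hD.sub_union hc' fun n i hi => ?_
    rw [mem_filter] at hi
    rw [mem_union]
    by_cases h1 : φ n (π n i) = π n (φ n i)
    · left
      exact mem_filter.mpr ⟨mem_univ _, hi.2.1, hi.2.2, h1⟩
    · right
      rw [mem_Df]
      exact h1
  -- split according to whether `π` fixes the point
  have hsplit : ¬ Null U (fun n => (D n).filter fun i => π n i ≠ i) ∨
      ¬ Null U (fun n => (D n).filter fun i => π n i = i) := by
    by_contra hcon
    push Not at hcon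
    apply hD
    refine hcon.1.sub_union hcon.2 fun n i hi => ?_
    by_cases h1 : π n i = i
    · exact mem_union_right _ (mem_filter.mpr ⟨hi, h1⟩)
    · exact mem_union_left _ (mem_filter.mpr ⟨hi, h1⟩)
  -- a set `T` and an element `ψ` commuting with `π`
  suffices hmain : ∃ (T : ∀ n, Finset (Fin n)) (ψ : PS), ¬ Null U T ∧
      (∀ᶠ n in (U : Filter ℕ), (∀ i, ψ n (π n i) = π n (ψ n i)) ∧
        (∀ i ∈ T n, ψ n i ∈ T n ∧ ψ n (ψ n i) ≠ i ∧ ψ n (φ n i) = φ n i) ∧
        (∀ i ∈ T n, ∃ j ∈ T n, ψ n j = i)) by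
    obtain ⟨T, ψ, hT, hev⟩ := hmain
    have hcomm : cls U ψ * cls U π = cls U π * cls U ψ := by
      have : cls U (ψ * π) = cls U (π * ψ) := by
        rw [cls_eq hU]
        refine null_empty.mono' (hev.mono fun n hn i hi => ?_)
        rw [mem_Df] at hi
        exact absurd (hn.1 i) hi
      exact this
    have h1 := hconj (cls U ψ) hcomm
    have h2 : Null U (Df (φ * (ψ * φ * ψ⁻¹)) ((ψ * φ * ψ⁻¹) * φ)) := (cls_eq hU).mp h1
    apply hT
    refine h2.of_le 1 (hev.mono fun n hn => ?_)
    rw [one_mul]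
    refine card_le_card_of_injOn (fun i => φ n i) ?_ (fun a _ b _ hab => (φ n).injective hab)
    intro i hi
    rw [mem_coe] at hi ⊢
    rw [mem_Df]
    obtain ⟨-, hn2, hn3⟩ := hn
    have hfix : ∀ j ∈ T n, (ψ n)⁻¹ (φ n j) = φ n j := by
      intro j hj
      rw [Equiv.Perm.inv_eq_iff_eq]
      exact ((hn2 j hj).2.2).symm
    show φ n (ψ n (φ n ((ψ n)⁻¹ (φ n i)))) ≠ ψ n (φ n ((ψ n)⁻¹ (φ n (φ n i))))
    rw [hfix i hi, hφ n i]
    obtain ⟨j, hj, hji⟩ := hn3 i hi
    have h3 : (ψ n)⁻¹ i = j := by
      rw [Equiv.Perm.inv_eq_iff_eq]; exact hji.symm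
    rw [h3, (hn2 j hj).2.2]
    intro h4
    have h5 := (φ n).injective h4
    have h6 := (hn2 j hj).2.1
    apply h6
    rw [hji, h5]
  rcases hsplit with hs | hs
  · -- `π` moves the points
    have hT : ∀ n, ∃ T : Finset (Fin n), T ⊆ ((D n).filter fun i => π n i ≠ i) ∧
        (∀ i ∈ T, π n i ∉ T ∧ φ n i ∉ T ∧ π n (φ n i) ∉ T) ∧
        ((D n).filter fun i => π n i ≠ i).card ≤ 7 * T.card := by
      intro n
      obtain ⟨T, hT1, hT2, hT3⟩ := exists_indep ((D n).filter fun i => π n i ≠ i)
        {π n, φ n, π n * φ n} (by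
          intro f hf i hi
          rw [mem_filter] at hi
          obtain ⟨hi1, hi2⟩ := hi
          have hi3 := (mem_filter.mp hi1).2
          simp only [mem_insert, mem_singleton] at hf
          rcases hf with rfl | rfl | rfl
          · exact hi2
          · exact hi3.1
          · intro h1
            apply hi3.2.1
            have h2 : π n (φ n i) = i := h1
            have h3 := congrArg (π n) h2
            rwa [hπ] at h3)
      refine ⟨T, hT1, fun i hi => ⟨hT2 (π n) (by simp) i hi, hT2 (φ n) (by simp) i hi, ?_⟩, ?_⟩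
      · exact hT2 (π n * φ n) (by simp) i hi
      · refine hT3.trans (Nat.mul_le_mul_right _ ?_)
        have : ({π n, φ n, π n * φ n} : Finset (Equiv.Perm (Fin n))).card ≤ 3 := card_le_three
        omega
    choose T hT1 hT2 hT3 using hT
    have hTn : ¬ Null U T := fun h => hs (h.of_le 7 (Eventually.of_forall hT3))
    choose ρ hρ1 hρ2 using fun n => (T n).exists_cycleOn
    refine ⟨T, fun n => ρ n * (π n * ρ n * π n), hTn, ?_⟩
    filter_upwards [not_null_large hU hTn 3] with n hn
    have hρfix : ∀ i, i ∉ T n → ρ n i = i := by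
      intro i hi
      by_contra h
      exact hi (hρ2 n (Equiv.Perm.mem_support.mpr h))
    have hρmem : ∀ i, i ∈ T n → ρ n i ∈ T n := fun i hi => (hρ1 n).1.mapsTo hi
    have hval : ∀ i, i ∈ T n → (ρ n * (π n * ρ n * π n)) i = ρ n i := by
      intro i hi
      show ρ n (π n (ρ n (π n i))) = ρ n i
      rw [hρfix _ (hT2 n i hi).1, hπ]
    have hval2 : ∀ i, π n i ∈ T n → (ρ n * (π n * ρ n * π n)) i = π n (ρ n (π n i)) := by
      intro i hi
      show ρ n (π n (ρ n (π n i))) = _
      exact hρfix _ (hT2 n _ (hρmem _ hi)).1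
    have hval3 : ∀ i, i ∉ T n → π n i ∉ T n → (ρ n * (π n * ρ n * π n)) i = i := by
      intro i hi hi2
      show ρ n (π n (ρ n (π n i))) = _
      rw [hρfix _ hi2, hπ, hρfix _ hi]
    refine ⟨?_, ?_, ?_⟩
    · intro i
      by_cases h1 : i ∈ T n
      · rw [hval i h1, hval2 (π n i) (by rwa [hπ]), hπ]
      · by_cases h2 : π n i ∈ T n
        · rw [hval _ h2, hval2 i h2, hπ]
        · rw [hval3 i h1 h2, hval3 (π n i) h2 (by rwa [hπ])]
    · intro i hi
      refine ⟨by rw [hval i hi]; exact hρmem i hi, ?_, ?_⟩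
      · rw [hval i hi, hval _ (hρmem i hi)]
        intro h
        have h1 : ((ρ n) ^ 2) i = i := h
        rw [(hρ1 n).pow_apply_eq hi] at h1
        have := Nat.le_of_dvd (by norm_num) h1
        omega
      · exact hval3 _ (hT2 n i hi).2.1 (hT2 n i hi).2.2
    · intro i hi
      obtain ⟨j, hj, hji⟩ := (hρ1 n).1.surjOn hi
      exact ⟨j, hj, by rw [hval j hj]; exact hji⟩
  · -- `π` fixes the points
    have hT : ∀ n, ∃ T : Finset (Fin n), T ⊆ ((D n).filter fun i => π n i = i) ∧
        (∀ i ∈ T, φ n i ∉ T) ∧ ((D n).filter fun i => π n i = i).card ≤ 3 * T.card := by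
      intro n
      obtain ⟨T, hT1, hT2, hT3⟩ := exists_indep ((D n).filter fun i => π n i = i)
        {φ n} (by
          intro f hf i hi
          rw [mem_filter] at hi
          rw [mem_singleton] at hf
          rw [hf]
          exact ((mem_filter.mp hi.1).2).1)
      exact ⟨T, hT1, fun i hi => hT2 (φ n) (mem_singleton_self _) i hi, by simpa using hT3⟩
    choose T hT1 hT2 hT3 using hT
    have hTn : ¬ Null U T := fun h => hs (h.of_le 3 (Eventually.of_forall hT3))
    choose ρ hρ1 hρ2 using fun n => (T n).exists_cycleOn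
    refine ⟨T, ρ, hTn, ?_⟩
    filter_upwards [not_null_large hU hTn 3] with n hn
    have hρfix : ∀ i, i ∉ T n → ρ n i = i := by
      intro i hi
      by_contra h
      exact hi (hρ2 n (Equiv.Perm.mem_support.mpr h))
    have hρmem : ∀ i, i ∈ T n → ρ n i ∈ T n := fun i hi => (hρ1 n).1.mapsTo hi
    have hπT : ∀ i ∈ T n, π n i = i := fun i hi => (mem_filter.mp (hT1 n hi)).2
    refine ⟨?_, ?_, ?_⟩
    · intro i
      by_cases h1 : i ∈ T n
      · rw [hπT i h1, hπT _ (hρmem i h1)]
      · have h2 : π n i ∉ T n := by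
          intro h2
          have h3 := hπT _ h2
          rw [hπ] at h3
          rw [← h3] at h2
          exact h1 h2
        rw [hρfix _ h1, hρfix _ h2]
    · intro i hi
      refine ⟨hρmem i hi, ?_, hρfix _ (hT2 n i hi)⟩
      intro h
      have h1 : ((ρ n) ^ 2) i = i := h
      rw [(hρ1 n).pow_apply_eq hi] at h1
      have := Nat.le_of_dvd (by norm_num) h1
      omega
    · intro i hi
      obtain ⟨j, hj, hji⟩ := (hρ1 n).1.surjOn hi
      exact ⟨j, hj, hji⟩

/-- `π` on `D`, the identity off `D` -/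
def cut {n : ℕ} (π : Equiv.Perm (Fin n)) (hπ : ∀ i, π (π i) = i) (D : Finset (Fin n))
    (hD : ∀ i ∈ D, π i ∈ D) : Equiv.Perm (Fin n) :=
  Function.Involutive.toPerm (fun i => if i ∈ D then π i else i) (by
    intro i
    by_cases h : i ∈ D
    · have h1 : π i ∈ D := hD i h
      simp [h, h1, hπ]
    · simp [h])

omit hU in
theorem cut_of_mem {n : ℕ} {π : Equiv.Perm (Fin n)} {hπ : ∀ i, π (π i) = i} {D : Finset (Fin n)}
    {hD : ∀ i ∈ D, π i ∈ D} {i : Fin n} (h : i ∈ D) : cut π hπ D hD i = π i := if_pos h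

omit hU in
theorem cut_of_notMem {n : ℕ} {π : Equiv.Perm (Fin n)} {hπ : ∀ i, π (π i) = i} {D : Finset (Fin n)}
    {hD : ∀ i ∈ D, π i ∈ D} {i : Fin n} (h : i ∉ D) : cut π hπ D hD i = i := if_neg h

/-- the elements `cut π D` lie in `Uf` -/
theorem cut_mem_Uf {π : PS} (hπ : ∀ n i, π n (π n i) = i) (D : ∀ n, Finset (Fin n))
    (hD : ∀ n, ∀ i ∈ D n, π n i ∈ D n) :
    cls U (fun n => cut (π n) (hπ n) (D n) (hD n)) ∈ Uf (cls U π) := by
  obtain ⟨κ, hκ⟩ : ∃ κ : PS, κ = fun n => cut (π n) (hπ n) (D n) (hD n) := ⟨_, rfl⟩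
  rw [← hκ]
  have hκ1 : ∀ n i, i ∈ D n → κ n i = π n i := fun n i hi => by rw [hκ]; exact cut_of_mem hi
  have hκ2 : ∀ n i, i ∉ D n → κ n i = i := fun n i hi => by rw [hκ]; exact cut_of_notMem hi
  have hD' : ∀ n i, i ∉ D n → π n i ∉ D n := by
    intro n i hi h
    have := hD n _ h
    rw [hπ] at this
    exact hi this
  refine ⟨?_, ?_, ?_⟩
  · have : cls U (κ * π) = cls U (π * κ) := by
      congr 1
      funext n
      ext i
      show ((κ n (π n i) : Fin n) : ℕ) = π n (κ n i)
      by_cases h : i ∈ D n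
      · rw [hκ1 n _ (hD n i h), hκ1 n i h]
      · rw [hκ2 n _ (hD' n i h), hκ2 n i h]
    exact this
  · have : cls U (κ * κ) = cls U 1 := by
      congr 1
      funext n
      ext i
      show ((κ n (κ n i) : Fin n) : ℕ) = i
      by_cases h : i ∈ D n
      · rw [hκ1 n i h, hκ1 n _ (hD n i h), hπ]
      · rw [hκ2 n i h, hκ2 n i h]
    exact this
  · intro v hv
    obtain ⟨ψ, rfl⟩ := QuotientGroup.mk_surjective v
    have h1 : cls U (ψ * π) = cls U (π * ψ) := hv
    rw [cls_eq hU] at h1
    -- points `j` with `π ψ⁻¹ j ≠ ψ⁻¹ π j`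
    have h2 : Null U fun n => univ.filter fun j : Fin n =>
        π n ((ψ n)⁻¹ j) ≠ (ψ n)⁻¹ (π n j) := by
      refine h1.of_le 1 (Eventually.of_forall fun n => ?_)
      rw [one_mul]
      refine card_le_card_of_injOn (fun j => (ψ n)⁻¹ j) ?_ fun a _ b _ hab => (ψ n)⁻¹.injective hab
      intro j hj
      rw [mem_coe] at hj ⊢
      rw [mem_filter] at hj
      rw [mem_Df]
      intro h
      apply hj.2
      have h3 : ψ n (π n ((ψ n)⁻¹ j)) = π n (ψ n ((ψ n)⁻¹ j)) := h
      have h4 : ψ n ((ψ n)⁻¹ j) = j := (ψ n).apply_symm_apply j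
      rw [h4] at h3
      rw [← h3]
      exact ((ψ n).symm_apply_apply _).symm
    have h3 : cls U (κ * (ψ * κ * ψ⁻¹)) = cls U ((ψ * κ * ψ⁻¹) * κ) := by
      rw [cls_eq hU]
      refine (h2.union h2).mono fun n j hj => ?_
      rw [union_idempotent, mem_filter]
      refine ⟨mem_univ _, fun hgood => ?_⟩
      rw [mem_Df] at hj
      apply hj
      show κ n (ψ n (κ n ((ψ n)⁻¹ j))) = ψ n (κ n ((ψ n)⁻¹ (κ n j)))
      have h4 : ∀ j, ψ n ((ψ n)⁻¹ j) = j := (ψ n).apply_symm_apply
      have hgood' : ψ n (π n ((ψ n)⁻¹ j)) = π n j := by rw [hgood, h4]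
      by_cases ha : (ψ n)⁻¹ j ∈ D n
      · rw [hκ1 n _ ha, hgood']
        by_cases hb : j ∈ D n
        · rw [hκ1 n _ hb, hκ1 n _ (hD n _ hb), hπ, ← hgood, hκ1 n _ (hD n _ ha), hπ, h4]
        · rw [hκ2 n _ hb, hκ2 n _ (hD' n _ hb), hκ1 n _ ha, hgood']
      · rw [hκ2 n _ ha, h4]
        by_cases hb : j ∈ D n
        · rw [hκ1 n _ hb, ← hgood, hκ2 n _ (hD' n _ ha), hgood']
        · rw [hκ2 n _ hb, hκ2 n _ ha, h4]
    exact h3

/-- the square of an element of `Vf p` is trivial on the support of `p` -/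
theorem Vf_sub {π ψ : PS} (hπ : ∀ n i, π n (π n i) = i) (h : cls U ψ ∈ Vf (cls U π)) :
    Null U fun n => univ.filter fun i => π n i ≠ i ∧ ψ n (ψ n i) ≠ i := by
  -- almost all points of the support are mapped to `i` or `π i`
  have hQ : Null U fun n => univ.filter fun i => π n i ≠ i ∧ ψ n i ≠ i ∧ ψ n i ≠ π n i := by
    by_contra hnull
    have hT : ∀ n, ∃ T : Finset (Fin n),
        T ⊆ (univ.filter fun i => π n i ≠ i ∧ ψ n i ≠ i ∧ ψ n i ≠ π n i) ∧
        (∀ i ∈ T, ψ n i ∉ T ∧ π n (ψ n i) ∉ T) ∧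
        (univ.filter fun i => π n i ≠ i ∧ ψ n i ≠ i ∧ ψ n i ≠ π n i).card ≤ 5 * T.card := by
      intro n
      obtain ⟨T, hT1, hT2, hT3⟩ := exists_indep
        (univ.filter fun i => π n i ≠ i ∧ ψ n i ≠ i ∧ ψ n i ≠ π n i) {ψ n, π n * ψ n} (by
          intro f hf i hi
          have hi3 := (mem_filter.mp hi).2
          simp only [mem_insert, mem_singleton] at hf
          rcases hf with rfl | rfl
          · exact hi3.2.1
          · intro h1
            apply hi3.2.2
            have h2 : π n (ψ n i) = i := h1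
            have h3 := congrArg (π n) h2
            rwa [hπ] at h3)
      refine ⟨T, hT1, fun i hi => ⟨hT2 (ψ n) (by simp) i hi, hT2 (π n * ψ n) (by simp) i hi⟩, ?_⟩
      refine hT3.trans (Nat.mul_le_mul_right _ ?_)
      have : ({ψ n, π n * ψ n} : Finset (Equiv.Perm (Fin n))).card ≤ 2 := card_le_two
      omega
    choose T hT1 hT2 hT3 using hT
    have hD : ∀ n, ∀ i ∈ T n ∪ (T n).image (π n), π n i ∈ T n ∪ (T n).image (π n) := by
      intro n i hi
      rw [mem_union] at hi ⊢
      rcases hi with hi | hi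
      · exact Or.inr (mem_image_of_mem _ hi)
      · obtain ⟨j, hj, rfl⟩ := mem_image.mp hi
        left
        rwa [hπ]
    have h1 := h _ (cut_mem_Uf hU hπ (fun n => T n ∪ (T n).image (π n)) hD)
    obtain ⟨κ, hκ⟩ : ∃ κ : PS, κ = fun n => cut (π n) (hπ n) (T n ∪ (T n).image (π n)) (hD n) :=
      ⟨_, rfl⟩
    rw [← hκ] at h1
    have h2 : Null U (Df (κ * ψ) (ψ * κ)) := (cls_eq hU).mp h1
    apply hnull
    refine h2.of_le 5 (Eventually.of_forall fun n => (hT3 n).trans (Nat.mul_le_mul_left _ ?_))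
    apply card_le_card
    intro i hi
    rw [mem_Df]
    show κ n (ψ n i) ≠ ψ n (κ n i)
    have hi1 : κ n i = π n i := by
      rw [hκ]; exact cut_of_mem (mem_union_left _ hi)
    have hi2 : κ n (ψ n i) = ψ n i := by
      rw [hκ]
      apply cut_of_notMem
      rw [mem_union, not_or]
      refine ⟨(hT2 n i hi).1, fun hmem => ?_⟩
      obtain ⟨j, hj, hji⟩ := mem_image.mp hmem
      apply (hT2 n i hi).2
      rw [← hji, hπ]
      exact hj
    rw [hi1, hi2]
    intro h3
    exact (mem_filter.mp (hT1 n hi)).2.1 ((ψ n).injective h3).symm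
  -- `ψ` commutes with `π`
  have hc : Null U (Df (π * ψ) (ψ * π)) := by
    have h1 := h _ (cut_mem_Uf hU hπ (fun n => univ) (fun n i _ => mem_univ _))
    have h2 : (fun n => cut (π n) (hπ n) univ (fun i _ => mem_univ _) : PS) = π := by
      funext n
      ext i
      exact congrArg _ (cut_of_mem (mem_univ i))
    rw [h2] at h1
    exact (cls_eq hU).mp h1
  refine hQ.sub_union hc fun n i hi => ?_
  rw [mem_filter] at hi
  rw [mem_union]
  by_cases h1 : π n (ψ n i) = ψ n (π n i)
  · left
    refine mem_filter.mpr ⟨mem_univ _, hi.2.1, ?_, ?_⟩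
    · intro h2
      exact hi.2.2 (by rw [h2, h2])
    · intro h2
      apply hi.2.2
      rw [h2, ← h1, h2, hπ]
  · right
    rw [mem_Df]
    exact h1

/-- **The support is definable.**  For an exact involution `π`, the elements of `Wf` are the
elements supported by the support of `π`. -/
theorem mem_Wf_iff {π φ : PS} (hπ : ∀ n i, π n (π n i) = i) :
    cls U φ ∈ Wf (cls U π) ↔ Null U fun n => Sp φ n \ Sp π n := by
  constructor
  · intro h
    by_contra hnull
    have hT : ∀ n, ∃ T : Finset (Fin n), T ⊆ Sp φ n \ Sp π n ∧ (∀ i ∈ T, φ n i ∉ T) ∧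
        (Sp φ n \ Sp π n).card ≤ 3 * T.card := by
      intro n
      obtain ⟨T, hT1, hT2, hT3⟩ := exists_indep (Sp φ n \ Sp π n) {φ n} (by
        intro f hf i hi
        rw [mem_singleton] at hf
        rw [hf]
        exact mem_Sp.mp (Finset.mem_sdiff.mp hi).1)
      exact ⟨T, hT1, fun i hi => hT2 (φ n) (mem_singleton_self _) i hi, by simpa using hT3⟩
    choose T hT1 hT2 hT3 using hT
    have hTn : ¬ Null U T := fun h => hnull (h.of_le 3 (Eventually.of_forall hT3))
    choose ρ hρ1 hρ2 using fun n => (T n).exists_cycleOn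
    have hρfix : ∀ n i, i ∉ T n → ρ n i = i := by
      intro n i hi
      by_contra h
      exact hi (hρ2 n (Equiv.Perm.mem_support.mpr h))
    have hρmem : ∀ n i, i ∈ T n → ρ n i ∈ T n := fun n i hi => (hρ1 n).1.mapsTo hi
    have hπT : ∀ n i, i ∈ T n → π n i = i := by
      intro n i hi
      by_contra h1
      exact (Finset.mem_sdiff.mp (hT1 n hi)).2 (mem_Sp.mpr h1)
    have hρV : cls U (ρ : PS) ∈ Vf (cls U π) := by
      intro u hu
      obtain ⟨κ', rfl⟩ := QuotientGroup.mk_surjective u
      have hu' : cls U κ' ∈ Uf (cls U π) := hu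
      obtain ⟨κ, hκ, hκ1⟩ := exists_rep hU hu'.2.1
      have hu2 : cls U κ ∈ Uf (cls U π) := by rw [hκ]; exact hu'
      have h1 := Uf_sub hU hπ hκ1 hu2
      have h2 : cls U (κ * ρ) = cls U (ρ * κ) := by
        rw [cls_eq hU]
        have h3 : Null U fun n => univ.filter fun i : Fin n =>
            κ n (ρ n i) ≠ ρ n i ∧ κ n (ρ n i) ≠ π n (ρ n i) := by
          refine h1.of_le 1 (Eventually.of_forall fun n => ?_)
          rw [one_mul]
          refine card_le_card_of_injOn (fun i => ρ n i) ?_ fun a _ b _ hab => (ρ n).injective hab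
          intro i hi
          rw [mem_coe, mem_filter] at hi ⊢
          exact ⟨mem_univ _, hi.2⟩
        refine h1.sub_union h3 fun n i hi => ?_
        rw [mem_Df] at hi
        by_contra hno
        rw [mem_union, mem_filter, mem_filter] at hno
        push Not at hno
        obtain ⟨h4, h5⟩ := hno
        have h4 := h4 (mem_univ _)
        have h5 := h5 (mem_univ _)
        apply hi
        show κ n (ρ n i) = ρ n (κ n i)
        by_cases hiT : i ∈ T n
        · have h6 : κ n i = i := by
            by_contra h7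
            exact h7 ((h4 h7).trans (hπT n i hiT))
          have h8 : κ n (ρ n i) = ρ n i := by
            by_contra h7
            exact h7 ((h5 h7).trans (hπT n _ (hρmem n i hiT)))
          rw [h6, h8]
        · rw [hρfix n i hiT]
          by_cases h6 : κ n i = i
          · rw [h6, hρfix n i hiT]
          · have h7 := h4 h6
            rw [h7]
            rw [hρfix n]
            intro h8
            have h9 := hπT n _ h8
            rw [hπ] at h9
            rw [← h9] at h8
            exact hiT h8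
      have h3 : cls U κ * cls U (ρ : PS) = cls U (ρ : PS) * cls U κ := h2
      rw [hκ] at h3
      exact h3
    have h1 := h _ hρV
    have h2 : Null U (Df (φ * (ρ * ρ)) ((ρ * ρ) * φ)) := (cls_eq hU).mp h1
    apply hTn
    refine h2.of_le 1 ((not_null_large hU hTn 3).mono fun n hn => ?_)
    rw [one_mul]
    apply card_le_card
    intro i hi
    rw [mem_Df]
    show φ n (ρ n (ρ n i)) ≠ ρ n (ρ n (φ n i))
    rw [hρfix n _ (hT2 n i hi), hρfix n _ (hT2 n i hi)]
    intro h3
    have h4 : ((ρ n) ^ 2) i = i := (φ n).injective h3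
    rw [(hρ1 n).pow_apply_eq hi] at h4
    have := Nat.le_of_dvd (by norm_num) h4
    omega
  · intro h v hv
    obtain ⟨ψ, rfl⟩ := QuotientGroup.mk_surjective v
    have h1 := Vf_sub hU hπ (show cls U ψ ∈ Vf (cls U π) from hv)
    have h2 : cls U (φ * (ψ * ψ)) = cls U ((ψ * ψ) * φ) := by
      rw [cls_eq hU]
      -- bad points: `i` or `φ i` in the null set of `h1`; `i`, `ψ² i` or `φ i` in the null set of `h`
      have h3 : Null U fun n => univ.filter fun i : Fin n =>
          π n (φ n i) ≠ φ n i ∧ ψ n (ψ n (φ n i)) ≠ φ n i := by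
        refine h1.of_le 1 (Eventually.of_forall fun n => ?_)
        rw [one_mul]
        refine card_le_card_of_injOn (fun i => φ n i) ?_ fun a _ b _ hab => (φ n).injective hab
        intro i hi
        rw [mem_coe, mem_filter] at hi ⊢
        exact ⟨mem_univ _, hi.2⟩
      have h4 : Null U fun n => univ.filter fun i : Fin n =>
          φ n (ψ n (ψ n i)) ≠ ψ n (ψ n i) ∧ π n (ψ n (ψ n i)) = ψ n (ψ n i) := by
        refine h.of_le 1 (Eventually.of_forall fun n => ?_)
        rw [one_mul]
        refine card_le_card_of_injOn (fun i => ψ n (ψ n i)) ?_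
          fun a _ b _ hab => (ψ n).injective ((ψ n).injective hab)
        intro i hi
        rw [mem_coe] at hi ⊢
        rw [mem_filter] at hi
        show ψ n (ψ n i) ∈ Sp φ n \ Sp π n
        rw [Finset.mem_sdiff, mem_Sp, mem_Sp, not_not]
        exact hi.2
      have h5 : Null U fun n => univ.filter fun i : Fin n =>
          φ n (φ n i) ≠ φ n i ∧ π n (φ n i) = φ n i := by
        refine h.of_le 1 (Eventually.of_forall fun n => ?_)
        rw [one_mul]
        refine card_le_card_of_injOn (fun i => φ n i) ?_ fun a _ b _ hab => (φ n).injective hab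
        intro i hi
        rw [mem_coe] at hi ⊢
        rw [mem_filter] at hi
        show φ n i ∈ Sp φ n \ Sp π n
        rw [Finset.mem_sdiff, mem_Sp, mem_Sp, not_not]
        exact hi.2
      have h6 : Null U fun n => univ.filter fun i : Fin n =>
          π n (ψ n (ψ n i)) ≠ ψ n (ψ n i) ∧ ψ n (ψ n (ψ n (ψ n i))) ≠ ψ n (ψ n i) := by
        refine h1.of_le 1 (Eventually.of_forall fun n => ?_)
        rw [one_mul]
        refine card_le_card_of_injOn (fun i => ψ n (ψ n i)) ?_
          fun a _ b _ hab => (ψ n).injective ((ψ n).injective hab)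
        intro i hi
        rw [mem_coe, mem_filter] at hi ⊢
        exact ⟨mem_univ _, hi.2⟩
      refine ((((h1.union h3).union (h4.union h5)).union h6).union h).mono fun n i hi => ?_
      rw [mem_Df] at hi
      by_contra hno
      simp only [mem_union, mem_filter, mem_univ, true_and, not_or, Finset.mem_sdiff, mem_Sp] at hno
      push Not at hno
      obtain ⟨⟨⟨⟨g1, g3⟩, g4, g5⟩, g6⟩, g⟩ := hno
      apply hi
      show φ n (ψ n (ψ n i)) = ψ n (ψ n (φ n i))
      by_cases hi1 : ψ n (ψ n i) = i
      · rw [hi1]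
        by_cases hi2 : φ n i = i
        · rw [hi2, hi1]
        · -- `φ i ≠ i`, so `φ (φ i) ≠ φ i`, `φ i` in the support of `π`
          have h7 : φ n (φ n i) ≠ φ n i := fun h => hi2 ((φ n).injective h)
          have h8 : π n (φ n i) ≠ φ n i := g5 h7
          exact (g3 h8).symm
      · -- `i` is fixed by `π`
        have hi3 : π n i = i := by
          by_contra h7
          exact hi1 (g1 h7)
        have hi4 : φ n i = i := by
          by_contra h7
          exact (g h7) hi3
        rw [hi4]
        have h9 : ψ n (ψ n (ψ n (ψ n i))) ≠ ψ n (ψ n i) := by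
          intro h10
          exact hi1 ((ψ n).injective ((ψ n).injective h10))
        have h8 : π n (ψ n (ψ n i)) = ψ n (ψ n i) := by
          by_contra h7
          exact h9 (g6 h7)
        by_contra h7
        exact (g4 h7) h8
    exact h2

end Ultra

end Pool.Agent.helper69.MU
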