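import Pool.Agent.helper69.MU.Supp

set_option autoImplicit false

/-!
# The Boolean automorphism attached to an automorphism of the metric ultraproduct
-/

namespace Pool.Agent.helper69.MU

open Filter Topology Finset

/-- sequences of sets -/
abbrev SS : Type := ∀ n : ℕ, Finset (Fin n)

/-- inclusion up to a null sequence -/
def Le0 (U : Ultrafilter ℕ) (A B : SS) : Prop := Null U fun n => A n \ B n

/-- equality up to a null sequence -/
def Eq0 (U : Ultrafilter ℕ) (A B : SS) : Prop := Le0 U A B ∧ Le0 U B A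

section basic

variable {U : Ultrafilter ℕ}

theorem Le0.of_sub {A B : SS} (h : ∀ n, A n ⊆ B n) : Le0 U A B :=
  null_empty.mono fun n => by
    intro i hi
    rw [Finset.mem_sdiff] at hi
    exact absurd (h n hi.1) hi.2

theorem Le0.refl (A : SS) : Le0 U A A := Le0.of_sub fun n => Subset.refl _

theorem Le0.trans {A B C : SS} (h1 : Le0 U A B) (h2 : Le0 U B C) : Le0 U A C :=
  Null.sub_union h1 h2 fun n i hi => by
    rw [Finset.mem_sdiff] at hi
    rw [mem_union, Finset.mem_sdiff, Finset.mem_sdiff]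
    tauto

theorem Eq0.refl (A : SS) : Eq0 U A A := ⟨Le0.refl A, Le0.refl A⟩

theorem Eq0.symm {A B : SS} (h : Eq0 U A B) : Eq0 U B A := ⟨h.2, h.1⟩

theorem Eq0.trans {A B C : SS} (h1 : Eq0 U A B) (h2 : Eq0 U B C) : Eq0 U A C :=
  ⟨h1.1.trans h2.1, h2.2.trans h1.2⟩

theorem Le0.inter {A B C : SS} (h1 : Le0 U A B) (h2 : Le0 U A C) :
    Le0 U A fun n => B n ∩ C n :=
  Null.sub_union h1 h2 fun n i hi => by
    rw [Finset.mem_sdiff, mem_inter] at hi
    rw [mem_union, Finset.mem_sdiff, Finset.mem_sdiff]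
    tauto

theorem Le0.union_le {A B C : SS} (h1 : Le0 U B A) (h2 : Le0 U C A) :
    Le0 U (fun n => B n ∪ C n) A :=
  Null.sub_union h1 h2 fun n i hi => by
    rw [Finset.mem_sdiff, mem_union] at hi
    rw [mem_union, Finset.mem_sdiff, Finset.mem_sdiff]
    tauto

theorem Eq0.inter {A B A' B' : SS} (h1 : Eq0 U A A') (h2 : Eq0 U B B') :
    Eq0 U (fun n => A n ∩ B n) fun n => A' n ∩ B' n := by
  refine ⟨Le0.inter ((Le0.of_sub fun n => inter_subset_left).trans h1.1)
    ((Le0.of_sub fun n => inter_subset_right).trans h2.1),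
    Le0.inter ((Le0.of_sub fun n => inter_subset_left).trans h1.2)
    ((Le0.of_sub fun n => inter_subset_right).trans h2.2)⟩

theorem Eq0.union {A B A' B' : SS} (h1 : Eq0 U A A') (h2 : Eq0 U B B') :
    Eq0 U (fun n => A n ∪ B n) fun n => A' n ∪ B' n := by
  refine ⟨Le0.union_le (h1.1.trans (Le0.of_sub fun n => subset_union_left))
    (h2.1.trans (Le0.of_sub fun n => subset_union_right)),
    Le0.union_le (h1.2.trans (Le0.of_sub fun n => subset_union_left))
    (h2.2.trans (Le0.of_sub fun n => subset_union_right))⟩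

theorem Le0.compl {A B : SS} (h : Le0 U A B) : Le0 U (fun n => (B n)ᶜ) fun n => (A n)ᶜ :=
  Null.mono h fun n i hi => by
    rw [Finset.mem_sdiff, mem_compl, mem_compl, not_not] at hi
    rw [Finset.mem_sdiff]
    tauto

theorem Eq0.compl {A B : SS} (h : Eq0 U A B) : Eq0 U (fun n => (A n)ᶜ) fun n => (B n)ᶜ :=
  ⟨h.2.compl, h.1.compl⟩

/-- image of a sequence of sets under a sequence of permutations -/
def im (x : PS) (A : SS) : SS := fun n => (A n).image (x n)

theorem mem_im {x : PS} {A : SS} {n : ℕ} {i : Fin n} : i ∈ im x A n ↔ (x n)⁻¹ i ∈ A n := by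
  unfold im
  rw [mem_image]
  constructor
  · rintro ⟨j, hj, rfl⟩
    have : (x n)⁻¹ (x n j) = j := (x n).symm_apply_apply j
    rwa [this]
  · intro h
    exact ⟨_, h, (x n).apply_symm_apply i⟩

theorem Le0.im {A B : SS} (h : Le0 U A B) (x : PS) : Le0 U (im x A) (im x B) := by
  refine Null.of_le h 1 (Eventually.of_forall fun n => ?_)
  rw [one_mul]
  refine card_le_card_of_injOn (fun i => (x n)⁻¹ i) ?_ fun a _ b _ hab => (x n)⁻¹.injective hab
  intro i hi
  rw [mem_coe, Finset.mem_sdiff, mem_im, mem_im] at hi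
  rw [mem_coe]
  show (x n)⁻¹ i ∈ A n \ B n
  exact Finset.mem_sdiff.mpr hi

theorem Eq0.im {A B : SS} (h : Eq0 U A B) (x : PS) : Eq0 U (im x A) (im x B) :=
  ⟨h.1.im x, h.2.im x⟩

theorem Sp_conj (x y : PS) : Sp (x * y * x⁻¹) = im x (Sp y) := by
  funext n
  ext i
  rw [mem_im, mem_Sp, mem_Sp]
  show x n (y n ((x n)⁻¹ i)) ≠ i ↔ y n ((x n)⁻¹ i) ≠ (x n)⁻¹ i
  rw [not_iff_not]
  constructor
  · intro h
    rw [Equiv.Perm.eq_inv_iff_eq]
    exact h
  · intro h
    rw [h]
    exact (x n).apply_symm_apply i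

end basic

/-- an involution with almost prescribed support -/
theorem exists_iot {n : ℕ} : ∀ (k : ℕ) (A : Finset (Fin n)), A.card = k →
    ∃ ι : Equiv.Perm (Fin n), (∀ i, ι (ι i) = i) ∧ (∀ i, i ∉ A → ι i = i) ∧
      (A.filter fun i => ι i = i).card ≤ 1 := by
  intro k
  induction k using Nat.strong_induction_on with
  | _ k ih =>
    intro A hA
    by_cases hk : k ≤ 1
    · exact ⟨1, fun _ => rfl, fun _ _ => rfl, (card_filter_le _ _).trans (hA ▸ hk)⟩
    · push Not at hk
      obtain ⟨a, ha, b, hb, hab⟩ := one_lt_card.mp (hA ▸ hk)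
      have hcard : ((A.erase a).erase b).card = k - 2 := by
        rw [card_erase_of_mem (mem_erase.mpr ⟨hab.symm, hb⟩), card_erase_of_mem ha, hA]
        omega
      obtain ⟨ι, h1, h2, h3⟩ := ih (k - 2) (by omega) _ hcard
      have ha' : a ∉ (A.erase a).erase b := by simp
      have hb' : b ∉ (A.erase a).erase b := by simp
      have hιa := h2 a ha'
      have hιb := h2 b hb'
      have hne : ∀ i, i ≠ a → i ≠ b → ι i ≠ a ∧ ι i ≠ b := by
        intro i hia hib
        refine ⟨fun h => hia ?_, fun h => hib ?_⟩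
        · rw [← h1 i, h, hιa]
        · rw [← h1 i, h, hιb]
      refine ⟨Equiv.swap a b * ι, ?_, ?_, ?_⟩
      · intro i
        show Equiv.swap a b (ι (Equiv.swap a b (ι i))) = i
        by_cases hia : i = a
        · rw [hia, hιa, Equiv.swap_apply_left, hιb, Equiv.swap_apply_right]
        · by_cases hib : i = b
          · rw [hib, hιb, Equiv.swap_apply_right, hιa, Equiv.swap_apply_left]
          · obtain ⟨g1, g2⟩ := hne i hia hib
            rw [Equiv.swap_apply_of_ne_of_ne g1 g2, h1, Equiv.swap_apply_of_ne_of_ne hia hib]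
      · intro i hi
        have hia : i ≠ a := fun h => hi (h ▸ ha)
        have hib : i ≠ b := fun h => hi (h ▸ hb)
        have h4 : ι i = i := h2 i fun h => hi (mem_of_mem_erase (mem_of_mem_erase h))
        show Equiv.swap a b (ι i) = i
        rw [h4, Equiv.swap_apply_of_ne_of_ne hia hib]
      · refine (card_le_card ?_).trans h3
        intro i hi
        rw [mem_filter] at hi ⊢
        obtain ⟨hiA, hi⟩ := hi
        have hi' : Equiv.swap a b (ι i) = i := hi
        have hia : i ≠ a := by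
          intro h
          rw [h, hιa, Equiv.swap_apply_left] at hi'
          exact hab hi'.symm
        have hib : i ≠ b := by
          intro h
          rw [h, hιb, Equiv.swap_apply_right] at hi'
          exact hab hi'
        obtain ⟨g1, g2⟩ := hne i hia hib
        rw [Equiv.swap_apply_of_ne_of_ne g1 g2] at hi'
        exact ⟨mem_erase.mpr ⟨hib, mem_erase.mpr ⟨hia, hiA⟩⟩, hi'⟩

/-- an involution with support `A` up to one point -/
noncomputable def iot (n : ℕ) (A : Finset (Fin n)) : Equiv.Perm (Fin n) :=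
  (exists_iot A.card A rfl).choose

theorem iot_iot (n : ℕ) (A : Finset (Fin n)) (i : Fin n) : iot n A (iot n A i) = i :=
  (exists_iot A.card A rfl).choose_spec.1 i

theorem iot_of_notMem {n : ℕ} {A : Finset (Fin n)} {i : Fin n} (h : i ∉ A) : iot n A i = i :=
  (exists_iot A.card A rfl).choose_spec.2.1 i h

theorem iot_card (n : ℕ) (A : Finset (Fin n)) : (A.filter fun i => iot n A i = i).card ≤ 1 :=
  (exists_iot A.card A rfl).choose_spec.2.2

/-- the sequence of involutions -/
noncomputable def ioS (A : SS) : PS := fun n => iot n (A n)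

section Ultra

variable {U : Ultrafilter ℕ} (hU : ∀ n : ℕ, ({n} : Set ℕ) ∉ U)

include hU

theorem Sp_ioS (A : SS) : Eq0 U (Sp (ioS A)) A := by
  refine ⟨Le0.of_sub fun n i hi => ?_, ?_⟩
  · by_contra h
    exact (mem_Sp.mp hi) (iot_of_notMem h)
  · refine null_of_bounded hU 1 (Eventually.of_forall fun n => ?_)
    refine (card_le_card ?_).trans (iot_card n (A n))
    intro i hi
    rw [Finset.mem_sdiff, mem_Sp, not_not] at hi
    exact mem_filter.mpr hi

omit hU in
theorem ioS_ioS (A : SS) (n : ℕ) (i : Fin n) : ioS A n (ioS A n i) = i := iot_iot n (A n) i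

omit hU in
theorem cls_sq {x : PS} (hx : ∀ n i, x n (x n i) = i) : cls U x * cls U x = 1 := by
  have : x * x = 1 := by
    funext n
    ext i
    exact congrArg Fin.val (hx n i)
  have h2 : cls U (x * x) = 1 := by rw [this]; rfl
  exact h2

theorem Sp_eq {x y : PS} (h : cls U x = cls U y) : Eq0 U (Sp x) (Sp y) := by
  have h1 := (cls_eq hU).mp h
  constructor
  · refine h1.mono fun n i hi => ?_
    rw [Finset.mem_sdiff, mem_Sp, mem_Sp, not_not] at hi
    rw [mem_Df, hi.2]
    exact hi.1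
  · refine h1.mono fun n i hi => ?_
    rw [Finset.mem_sdiff, mem_Sp, mem_Sp, not_not] at hi
    rw [mem_Df, hi.2]
    exact hi.1.symm

/-- automorphisms preserve inclusion of supports -/
theorem le_iff (α : GU U ≃* GU U) {x y x' y' : PS} (hx : cls U x' = α (cls U x))
    (hy : cls U y' = α (cls U y)) (hy2 : cls U y * cls U y = 1) :
    Le0 U (Sp x) (Sp y) ↔ Le0 U (Sp x') (Sp y') := by
  have hy2' : cls U y' * cls U y' = 1 := by rw [hy, ← map_mul, hy2, map_one]
  obtain ⟨p, hp1, hp2⟩ := exists_rep hU hy2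
  obtain ⟨p', hp1', hp2'⟩ := exists_rep hU hy2'
  have h1 := Sp_eq hU hp1
  have h1' := Sp_eq hU hp1'
  have h2 : Le0 U (Sp x) (Sp y) ↔ cls U x ∈ Wf (cls U p) := by
    rw [mem_Wf_iff hU hp2]
    exact ⟨fun h => h.trans h1.2, fun h => Le0.trans h h1.1⟩
  have h2' : Le0 U (Sp x') (Sp y') ↔ cls U x' ∈ Wf (cls U p') := by
    rw [mem_Wf_iff hU hp2']
    exact ⟨fun h => h.trans h1'.2, fun h => Le0.trans h h1'.1⟩
  rw [h2, h2', hp1, hp1', hx, hy, Wf_map]

/-- `Θ` computes the supports of the images of involutions -/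
def Impl (α : GU U ≃* GU U) (Θ : SS → SS) : Prop :=
  ∀ A : SS, ∀ y : PS, cls U y = α (cls U (ioS A)) → Eq0 U (Θ A) (Sp y)

omit hU in
theorem exists_lift (g : GU U) : ∃ y : PS, cls U y = g := QuotientGroup.mk_surjective g

variable {α : GU U ≃* GU U} {Θ : SS → SS} (hΘ : Impl α Θ)

include hΘ

theorem th_supp {A : SS} {x y : PS} (hx : cls U x * cls U x = 1) (hxA : Eq0 U (Sp x) A)
    (hy : cls U y = α (cls U x)) : Eq0 U (Θ A) (Sp y) := by
  obtain ⟨z, hz⟩ := exists_lift (α (cls U (ioS A)))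
  refine (hΘ A z hz).trans ?_
  have h1 : Eq0 U (Sp (ioS A)) (Sp x) := (Sp_ioS hU A).trans hxA.symm
  exact ⟨(le_iff hU α hz hy hx).mp h1.1,
    (le_iff hU α hy hz (cls_sq (ioS_ioS A))).mp h1.2⟩

theorem th_le {A B : SS} : Le0 U (Θ A) (Θ B) ↔ Le0 U A B := by
  obtain ⟨y, hy⟩ := exists_lift (α (cls U (ioS A)))
  obtain ⟨z, hz⟩ := exists_lift (α (cls U (ioS B)))
  have h1 := hΘ A y hy
  have h2 := hΘ B z hz
  have h3 := Sp_ioS hU A
  have h4 := Sp_ioS hU B
  have h5 := le_iff hU α hy hz (cls_sq (ioS_ioS B))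
  constructor
  · intro h
    exact h3.2.trans ((h5.mpr (h1.2.trans (h.trans h2.1))).trans h4.1)
  · intro h
    exact h1.1.trans ((h5.mp (h3.1.trans (h.trans h4.2))).trans h2.2)

theorem th_surj (C : SS) : ∃ A, Eq0 U (Θ A) C := by
  obtain ⟨x', hx'⟩ := exists_lift (α.symm (cls U (ioS C)))
  have h1 : cls U x' * cls U x' = 1 := by
    rw [hx', ← map_mul, cls_sq (ioS_ioS C), map_one]
  have h2 : cls U (ioS C) = α (cls U x') := by rw [hx', MulEquiv.apply_symm_apply]
  exact ⟨Sp x', (th_supp hU hΘ h1 (Eq0.refl _) h2).trans (Sp_ioS hU C)⟩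

theorem th_im {x x' : PS} (hx : cls U x' = α (cls U x)) (A : SS) :
    Eq0 U (Θ (im x A)) (im x' (Θ A)) := by
  obtain ⟨z, hz⟩ := exists_lift (α (cls U (ioS A)))
  have h1 : cls U (x * ioS A * x⁻¹) * cls U (x * ioS A * x⁻¹) = 1 := by
    apply cls_sq
    intro n i
    show x n (ioS A n ((x n)⁻¹ (x n (ioS A n ((x n)⁻¹ i))))) = i
    have h : ∀ j, (x n)⁻¹ (x n j) = j := (x n).symm_apply_apply
    rw [h, ioS_ioS]
    exact (x n).apply_symm_apply i
  have h2 : Eq0 U (Sp (x * ioS A * x⁻¹)) (im x A) := by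
    rw [Sp_conj]
    exact (Sp_ioS hU A).im x
  have h3 : cls U (x' * z * x'⁻¹) = α (cls U (x * ioS A * x⁻¹)) := by
    have : cls U (x' * z * x'⁻¹) = cls U x' * cls U z * (cls U x')⁻¹ := rfl
    rw [this, hx, hz, ← map_inv, ← map_mul, ← map_mul]
    rfl
  have h4 := th_supp hU hΘ h1 h2 h3
  rw [Sp_conj] at h4
  exact h4.trans ((hΘ A z hz).symm.im x')

theorem th_inter (A B : SS) :
    Eq0 U (Θ fun n => A n ∩ B n) fun n => Θ A n ∩ Θ B n := by
  constructor
  · exact Le0.inter ((th_le hU hΘ).mpr (Le0.of_sub fun n => inter_subset_left))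
      ((th_le hU hΘ).mpr (Le0.of_sub fun n => inter_subset_right))
  · obtain ⟨C, hC⟩ := th_surj hU hΘ (fun n => Θ A n ∩ Θ B n)
    refine hC.2.trans ((th_le hU hΘ).mpr (Le0.inter ?_ ?_))
    · exact (th_le hU hΘ).mp (hC.1.trans (Le0.of_sub fun n => inter_subset_left))
    · exact (th_le hU hΘ).mp (hC.1.trans (Le0.of_sub fun n => inter_subset_right))

theorem th_union (A B : SS) :
    Eq0 U (Θ fun n => A n ∪ B n) fun n => Θ A n ∪ Θ B n := by
  constructor
  · obtain ⟨C, hC⟩ := th_surj hU hΘ (fun n => Θ A n ∪ Θ B n)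
    refine Le0.trans ((th_le hU hΘ).mpr (Le0.union_le ?_ ?_)) hC.1
    · exact (th_le hU hΘ).mp (Le0.trans (Le0.of_sub fun n => subset_union_left) hC.2)
    · exact (th_le hU hΘ).mp (Le0.trans (Le0.of_sub fun n => subset_union_right) hC.2)
  · exact Le0.union_le ((th_le hU hΘ).mpr (Le0.of_sub fun n => subset_union_left))
      ((th_le hU hΘ).mpr (Le0.of_sub fun n => subset_union_right))

theorem th_empty : Eq0 U (Θ fun _ => ∅) fun _ => ∅ := by
  obtain ⟨C, hC⟩ := th_surj hU hΘ (fun _ => ∅)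
  refine ⟨Le0.trans ((th_le hU hΘ).mpr (Le0.of_sub fun n => empty_subset _)) hC.1,
    Le0.of_sub fun n => empty_subset _⟩

theorem th_univ : Eq0 U (Θ fun _ => univ) fun _ => univ := by
  obtain ⟨C, hC⟩ := th_surj hU hΘ (fun _ => univ)
  refine ⟨Le0.of_sub fun n => subset_univ _, ?_⟩
  exact hC.2.trans ((th_le hU hΘ).mpr (Le0.of_sub fun n => subset_univ _))

theorem th_compl (A : SS) : Eq0 U (Θ fun n => (A n)ᶜ) fun n => (Θ A n)ᶜ := by
  have h1 := th_inter hU hΘ A fun n => (A n)ᶜ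
  have h2 := th_union hU hΘ A fun n => (A n)ᶜ
  have e1 : (fun n => A n ∩ (A n)ᶜ) = fun n => (∅ : Finset (Fin n)) := by
    funext n; exact inter_compl _
  have e2 : (fun n => A n ∪ (A n)ᶜ) = fun n => (univ : Finset (Fin n)) := by
    funext n; exact union_compl _
  rw [e1] at h1
  rw [e2] at h2
  have h3 : Le0 U (fun n => Θ A n ∩ Θ (fun n => (A n)ᶜ) n) fun _ => ∅ :=
    h1.2.trans (th_empty hU hΘ).1
  have h4 : Le0 U (fun _ => univ) fun n => Θ A n ∪ Θ (fun n => (A n)ᶜ) n :=
    (th_univ hU hΘ).2.trans h2.1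
  constructor
  · refine Null.mono h3 fun n i hi => ?_
    rw [Finset.mem_sdiff, mem_compl, not_not] at hi
    rw [Finset.mem_sdiff, mem_inter]
    exact ⟨⟨hi.2, hi.1⟩, notMem_empty i⟩
  · refine Null.mono h4 fun n i hi => ?_
    rw [Finset.mem_sdiff, mem_compl] at hi
    rw [Finset.mem_sdiff, mem_union]
    exact ⟨mem_univ _, fun h => h.elim hi.1 hi.2⟩

end Ultra

end Pool.Agent.helper69.MU
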