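import Pool.Agent.helper69.MU.Defs

set_option autoImplicit false

/-!
# Uniform measures on products of finite sets
-/

namespace Pool.Agent.helper69.MU

open MeasureTheory

/-- the uniform probability measure on a finite set -/
noncomputable def uni (X : Type) [Fintype X] [Nonempty X] [MeasurableSpace X] : Measure X :=
  (PMF.uniformOfFintype X).toMeasure

/-- the product of uniform measures -/
noncomputable def um (I X : Type) [Fintype X] [Nonempty X] [MeasurableSpace X] :
    Measure (I → X) := Measure.infinitePi fun _ : I => uni X

/-- the Haar probability measure on the compact group of all sequences of permutations: the product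
of the uniform measures on the groups `Sym(n)` -/
noncomputable def hPS :
    @Measure PS (@MeasurableSpace.pi ℕ (fun n => Equiv.Perm (Fin n)) fun _ => ⊤) :=
  @Measure.infinitePi ℕ (fun n => Equiv.Perm (Fin n)) (fun _ => ⊤)
    (fun n => @uni (Equiv.Perm (Fin n)) _ _ ⊤)

end Pool.Agent.helper69.MU
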