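import Pool.Agent.helper69.MU.Window

set_option autoImplicit false

/-!
# From approximate homomorphisms on windows to point maps, density version
-/

namespace Pool.Agent.helper69.MU

open Filter Topology Finset

/-- the density of `R n` tends to `0` along `U` -/
def Dens (U : Ultrafilter ℕ) (W : ℕ → Finset IX) {X : Type} [Fintype X] (x0 : X)
    (R : ℕ → Set (IX → X)) : Prop :=
  ∀ δ : ℝ, 0 < δ → ∀ᶠ n in (U : Filter ℕ),
    (Nat.card {u : W n → X // ext (W n) x0 u ∈ R n} : ℝ) <
      δ * (Fintype.card X : ℝ) ^ (W n).card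

section Main

variable {U : Ultrafilter ℕ} {W : ℕ → Finset IX} {F : (IX → ZMod 2) → ∀ n : ℕ, Fin n → ZMod 2}

/-- averaging: an event with small density -/
theorem avg_small' {X : Type} [Fintype X] (x0 : X)
    (f : ∀ n : ℕ, (IX → X) → ℝ) (hf0 : ∀ n x, f n x ≤ n) (ε : ℝ) (hε : 0 < ε)
    (h : Dens U W x0 fun n => {x | ε * n < f n x}) :
    ∀ᶠ n in (U : Filter ℕ), ∑ u : W n → X, f n (ext (W n) x0 u) ≤
      2 * ε * n * Fintype.card (W n → X) := by
  filter_upwards [h ε hε] with n hn
  have h2 := sum_le_of_few (fun u : W n → X => f n (ext (W n) x0 u)) (ε * n) n ε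
    (fun u => hf0 n _) (by positivity) (Nat.cast_nonneg n) (by
      have h3 : (Fintype.card (W n → X) : ℝ) = (Fintype.card X : ℝ) ^ (W n).card := by
        rw [Fintype.card_fun, Fintype.card_coe]
        push_cast
        ring
      rw [h3]
      exact hn.le)
  calc _ ≤ (ε * n + ε * n) * Fintype.card (W n → X) := h2
    _ = _ := by ring

/-- **Point maps, density version.**  `T` is the true map, `F` an approximation with windows. -/
theorem exists_point2 (hblr : BLR) {T : (IX → ZMod 2) → ∀ n : ℕ, Fin n → ZMod 2}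
    (hWne : ∀ᶠ n in (U : Filter ℕ), (W n).Nonempty)
    (hW : ∀ n x y, (∀ i ∈ W n, x i = y i) → F x n = F y n)
    (D1 : ∀ ε : ℝ, 0 < ε → Dens U W ((0, 0) : ZMod 2 × ZMod 2) fun n => {z | ε * n <
      dif (F ((fun i => (z i).1) + fun i => (z i).2) n)
        (F (fun i => (z i).1) n + F (fun i => (z i).2) n)})
    (D2 : ∀ ε : ℝ, 0 < ε → Dens U W ((0, 0, 0) : ZMod 2 × ZMod 2 × ZMod 2) fun n => {z | ε * n <
      dif (F ((fun i => (z i).1) * (fun i => (z i).2.1) + fun i => (z i).2.2) n +
        F (fun i => (z i).2.2) n) (F (fun i => (z i).1) n * F (fun i => (z i).2.1) n)})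
    (D3 : ∀ ε : ℝ, 0 < ε → Dens U W (0 : ZMod 2) fun n => {z | ε * n <
      dif (F (z + 1) n) (F z n + 1)})
    (D4 : ∀ x : IX → ZMod 2, ∀ ε : ℝ, 0 < ε → Dens U W (0 : ZMod 2) fun n => {c | ε * n <
      dif (F (x + c) n) (T x n + F c n)}) :
    ∃ h : ∀ n : ℕ, Fin n → IX, (∀ᶠ n in (U : Filter ℕ), ∀ j, h n j ∈ W n) ∧
      ∀ x, ∀ ε : ℝ, 0 < ε → ∀ᶠ n in (U : Filter ℕ),
        dif (T x n) (fun j => x (h n j)) ≤ ε * n := by
  classical
  -- the best point map
  have hbest : ∀ n, ∃ h : Fin n → IX, (W n).Nonempty → (∀ j, h j ∈ W n) ∧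
      ∀ g : Fin n → W n, ∑ u : W n → ZMod 2, dif (F (e0 (W n) u) n) (fun j => e0 (W n) u (h j)) ≤
        ∑ u : W n → ZMod 2, dif (F (e0 (W n) u) n) (fun j => u (g j)) := by
    intro n
    by_cases hne : (W n).Nonempty
    · have : Nonempty (W n) := hne.to_subtype
      obtain ⟨g, _, hg⟩ := exists_min_image (univ : Finset (Fin n → W n))
        (fun g => ∑ u : W n → ZMod 2, dif (F (e0 (W n) u) n) (fun j => u (g j))) univ_nonempty
      refine ⟨fun j => g j, fun _ => ⟨fun j => (g j).2, fun g' => ?_⟩⟩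
      refine le_trans (le_of_eq ?_) (hg g' (mem_univ _))
      refine sum_congr rfl fun u _ => ?_
      congr 1
      funext j
      exact ext_of_mem (g j).2
    · have : ∀ j : Fin n, ∃ x : IX, True := fun j => ⟨⟨n, j⟩, trivial⟩
      exact ⟨fun j => ⟨n, j⟩, fun h => absurd h hne⟩
  choose h hh using hbest
  refine ⟨h, hWne.mono fun n hn => (hh n hn).1, ?_⟩
  -- average distance
  have havg : ∀ ε : ℝ, 0 < ε → ∀ᶠ n in (U : Filter ℕ),
      ∑ u : W n → ZMod 2, dif (F (e0 (W n) u) n) (fun j => e0 (W n) u (h n j)) ≤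
        ε * n * Fintype.card (W n → ZMod 2) := by
    intro ε hε
    have hε' : 0 < ε / 2000 := by positivity
    have a1 := avg_small' (U := U) (W := W) (X := ZMod 2 × ZMod 2) (0, 0)
      (fun n z => dif (F ((fun i => (z i).1) + fun i => (z i).2) n)
        (F (fun i => (z i).1) n + F (fun i => (z i).2) n))
      (fun n z => dif_le _ _) (ε / 2000) hε' (D1 (ε / 2000) hε')
    have a2 := avg_small' (U := U) (W := W) (X := ZMod 2 × ZMod 2 × ZMod 2) (0, 0, 0)
      (fun n z => dif (F ((fun i => (z i).1) * (fun i => (z i).2.1) + fun i => (z i).2.2) n +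
        F (fun i => (z i).2.2) n) (F (fun i => (z i).1) n * F (fun i => (z i).2.1) n))
      (fun n z => dif_le _ _) (ε / 2000) hε' (D2 (ε / 2000) hε')
    have a3 := avg_small' (U := U) (W := W) (X := ZMod 2) 0
      (fun n z => dif (F (z + 1) n) (F z n + 1))
      (fun n z => dif_le _ _) (ε / 2000) hε' (D3 (ε / 2000) hε')
    filter_upwards [a1, a2, a3, hWne] with n b1 b2 b3 hne
    have : Nonempty (W n) := hne.to_subtype
    -- rewrite the sums
    have s1 : ∑ A : W n → ZMod 2, ∑ B : W n → ZMod 2,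
        ((univ.filter fun j => F (e0 (W n) (A + B)) n j ≠
          F (e0 (W n) A) n j + F (e0 (W n) B) n j).card : ℝ) ≤
        (ε / 1000) * Fintype.card (Fin n) * (Fintype.card (W n → ZMod 2) : ℝ) ^ 2 := by
      have hc : (Fintype.card (W n → ZMod 2 × ZMod 2) : ℝ) =
          (Fintype.card (W n → ZMod 2) : ℝ) ^ 2 := by
        rw [Fintype.card_congr (Equiv.arrowProdEquivProdArrow (W n) (fun _ => ZMod 2)
          (fun _ => ZMod 2)), Fintype.card_prod]
        push_cast
        ring
      rw [hc] at b1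
      rw [← Fintype.sum_prod_type']
      have hs := Fintype.sum_equiv (Equiv.arrowProdEquivProdArrow (W n) (fun _ => ZMod 2)
          (fun _ => ZMod 2)).symm
        (fun x : (W n → ZMod 2) × (W n → ZMod 2) =>
          ((univ.filter fun j => F (e0 (W n) (x.1 + x.2)) n j ≠
          F (e0 (W n) x.1) n j + F (e0 (W n) x.2) n j).card : ℝ))
        (fun u : W n → ZMod 2 × ZMod 2 =>
          dif (F ((fun i => (ext (W n) (0, 0) u i).1) + fun i => (ext (W n) (0, 0) u i).2) n)
        (F (fun i => (ext (W n) (0, 0) u i).1) n + F (fun i => (ext (W n) (0, 0) u i).2) n))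
        (by
          rintro ⟨A, B⟩
          have e1 := hW n (e0 (W n) A) (fun i => (ext (W n) (0, 0)
            ((Equiv.arrowProdEquivProdArrow (W n) (fun _ => ZMod 2)
              (fun _ => ZMod 2)).symm (A, B)) i).1) fun i hi => by
                show ext (W n) 0 A i = (ext (W n) (0, 0) _ i).1
                rw [ext_of_mem hi, ext_of_mem hi]; rfl
          have e2 := hW n (e0 (W n) B) (fun i => (ext (W n) (0, 0)
            ((Equiv.arrowProdEquivProdArrow (W n) (fun _ => ZMod 2)
              (fun _ => ZMod 2)).symm (A, B)) i).2) fun i hi => by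
                show ext (W n) 0 B i = (ext (W n) (0, 0) _ i).2
                rw [ext_of_mem hi, ext_of_mem hi]; rfl
          have e3 := hW n (e0 (W n) (A + B)) ((fun i => (ext (W n) (0, 0)
            ((Equiv.arrowProdEquivProdArrow (W n) (fun _ => ZMod 2)
              (fun _ => ZMod 2)).symm (A, B)) i).1) + fun i => (ext (W n) (0, 0)
            ((Equiv.arrowProdEquivProdArrow (W n) (fun _ => ZMod 2)
              (fun _ => ZMod 2)).symm (A, B)) i).2) fun i hi => by
                show ext (W n) 0 (A + B) i = (ext (W n) (0, 0) _ i).1 + (ext (W n) (0, 0) _ i).2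
                rw [ext_of_mem hi, ext_of_mem hi]; rfl
          rw [← e1, ← e2, ← e3]
          rfl)
      rw [hs, Fintype.card_fin]
      refine b1.trans (le_of_eq ?_)
      ring
    have s2 : ∑ A : W n → ZMod 2, ∑ B : W n → ZMod 2, ∑ C : W n → ZMod 2,
        ((univ.filter fun j => F (e0 (W n) (A * B + C)) n j + F (e0 (W n) C) n j ≠
          F (e0 (W n) A) n j * F (e0 (W n) B) n j).card : ℝ) ≤
        (ε / 1000) * Fintype.card (Fin n) * (Fintype.card (W n → ZMod 2) : ℝ) ^ 3 := by
      let E : (W n → ZMod 2) × (W n → ZMod 2) × (W n → ZMod 2) ≃ (W n → ZMod 2 × ZMod 2 × ZMod 2) :=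
        { toFun := fun x i => (x.1 i, x.2.1 i, x.2.2 i)
          invFun := fun u => (fun i => (u i).1, fun i => (u i).2.1, fun i => (u i).2.2)
          left_inv := fun x => rfl
          right_inv := fun u => rfl }
      have hc : (Fintype.card (W n → ZMod 2 × ZMod 2 × ZMod 2) : ℝ) =
          (Fintype.card (W n → ZMod 2) : ℝ) ^ 3 := by
        rw [← Fintype.card_congr E, Fintype.card_prod, Fintype.card_prod]
        push_cast
        ring
      rw [hc] at b2
      have hs0 : ∑ A : W n → ZMod 2, ∑ B : W n → ZMod 2, ∑ C : W n → ZMod 2,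
        ((univ.filter fun j => F (e0 (W n) (A * B + C)) n j + F (e0 (W n) C) n j ≠
          F (e0 (W n) A) n j * F (e0 (W n) B) n j).card : ℝ) =
        ∑ x : (W n → ZMod 2) × (W n → ZMod 2) × (W n → ZMod 2),
          ((univ.filter fun j => F (e0 (W n) (x.1 * x.2.1 + x.2.2)) n j +
            F (e0 (W n) x.2.2) n j ≠
            F (e0 (W n) x.1) n j * F (e0 (W n) x.2.1) n j).card : ℝ) := by
        rw [Fintype.sum_prod_type]
        refine sum_congr rfl fun A _ => ?_
        rw [Fintype.sum_prod_type]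
      rw [hs0]
      have hs := Fintype.sum_equiv E
        (fun x : (W n → ZMod 2) × (W n → ZMod 2) × (W n → ZMod 2) =>
          ((univ.filter fun j => F (e0 (W n) (x.1 * x.2.1 + x.2.2)) n j +
            F (e0 (W n) x.2.2) n j ≠
            F (e0 (W n) x.1) n j * F (e0 (W n) x.2.1) n j).card : ℝ))
        (fun u : W n → ZMod 2 × ZMod 2 × ZMod 2 =>
          dif (F ((fun i => (ext (W n) (0, 0, 0) u i).1) * (fun i => (ext (W n) (0, 0, 0) u i).2.1)
            + fun i => (ext (W n) (0, 0, 0) u i).2.2) n +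
            F (fun i => (ext (W n) (0, 0, 0) u i).2.2) n)
            (F (fun i => (ext (W n) (0, 0, 0) u i).1) n *
              F (fun i => (ext (W n) (0, 0, 0) u i).2.1) n))
        (by
          rintro ⟨A, B, C⟩
          have e1 := hW n (e0 (W n) A) (fun i => (ext (W n) (0, 0, 0) (E (A, B, C)) i).1)
            fun i hi => by
                show ext (W n) 0 A i = (ext (W n) (0, 0, 0) _ i).1
                rw [ext_of_mem hi, ext_of_mem hi]; rfl
          have e2 := hW n (e0 (W n) B) (fun i => (ext (W n) (0, 0, 0) (E (A, B, C)) i).2.1)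
            fun i hi => by
                show ext (W n) 0 B i = (ext (W n) (0, 0, 0) _ i).2.1
                rw [ext_of_mem hi, ext_of_mem hi]; rfl
          have e3 := hW n (e0 (W n) C) (fun i => (ext (W n) (0, 0, 0) (E (A, B, C)) i).2.2)
            fun i hi => by
                show ext (W n) 0 C i = (ext (W n) (0, 0, 0) _ i).2.2
                rw [ext_of_mem hi, ext_of_mem hi]; rfl
          have e4 := hW n (e0 (W n) (A * B + C))
            ((fun i => (ext (W n) (0, 0, 0) (E (A, B, C)) i).1) *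
              (fun i => (ext (W n) (0, 0, 0) (E (A, B, C)) i).2.1) +
              fun i => (ext (W n) (0, 0, 0) (E (A, B, C)) i).2.2)
            fun i hi => by
                show ext (W n) 0 (A * B + C) i = (ext (W n) (0, 0, 0) _ i).1 *
                  (ext (W n) (0, 0, 0) _ i).2.1 + (ext (W n) (0, 0, 0) _ i).2.2
                rw [ext_of_mem hi, ext_of_mem hi]; rfl
          rw [← e1, ← e2, ← e3, ← e4]
          rfl)
      rw [hs, Fintype.card_fin]
      refine b2.trans (le_of_eq ?_)
      ring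
    have s3 : ∑ A : W n → ZMod 2,
        ((univ.filter fun j => F (e0 (W n) (A + 1)) n j ≠ F (e0 (W n) A) n j + 1).card : ℝ) ≤
        (ε / 1000) * Fintype.card (Fin n) * Fintype.card (W n → ZMod 2) := by
      have hs : ∑ A : W n → ZMod 2,
          ((univ.filter fun j => F (e0 (W n) (A + 1)) n j ≠ F (e0 (W n) A) n j + 1).card : ℝ) =
          ∑ u : W n → ZMod 2, dif (F (ext (W n) 0 u + 1) n) (F (ext (W n) 0 u) n + 1) := by
        refine sum_congr rfl fun A _ => ?_
        have e1 := hW n (e0 (W n) (A + 1)) (ext (W n) 0 A + 1) fun i hi => by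
          show ext (W n) 0 (A + 1) i = ext (W n) 0 A i + 1
          rw [ext_of_mem hi, ext_of_mem hi]; rfl
        rw [e1]
        rfl
      rw [hs, Fintype.card_fin]
      refine b3.trans (le_of_eq ?_)
      ring
    obtain ⟨g, hg⟩ := hblr (fun u : W n → ZMod 2 => F (e0 (W n) u) n) (ε / 1000) s1 s2 s3
    refine ((hh n hne).2 g).trans (hg.trans (le_of_eq ?_))
    rw [Fintype.card_fin]
    ring
  -- transfer to a given point
  intro x ε hε
  have hε4 : 0 < ε / 4 := by positivity
  have t1 := D4 x (ε / 4) hε4 (1 / 4) (by norm_num)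
  have t2 := havg ((ε / 4) * (1 / 4)) (by positivity)
  filter_upwards [t1, t2, hWne] with n b1 b2 hne
  by_contra hcon
  push Not at hcon
  have hn0 : 0 < (n : ℝ) := by
    have h1 := dif_le (T x n) (fun j => x (h n j))
    have h2 : 0 ≤ ε * (n : ℝ) := by positivity
    linarith
  obtain ⟨N, hN⟩ : ∃ N : ℝ, N = Fintype.card (W n → ZMod 2) := ⟨_, rfl⟩
  have hN0 : 0 < N := by
    rw [hN]; exact_mod_cast Fintype.card_pos
  have hNc : (Fintype.card (ZMod 2) : ℝ) ^ (W n).card = N := by
    rw [hN, Fintype.card_fun, Fintype.card_coe]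
    push_cast
    ring
  rw [hNc] at b1
  rw [← hN] at b2
  let f : (W n → ZMod 2) → ℝ := fun u => dif (F (e0 (W n) u) n) (fun j => e0 (W n) u (h n j))
  have m1 := card_le_of_sum f (fun u => dif_nonneg _ _) ((ε / 4) * n) (by positivity) _ b2
  have m2 : (Nat.card {u : W n → ZMod 2 // (ε / 4) * n < f u} : ℝ) ≤ 1 / 4 * N := by
    have h3 : 0 < (ε / 4) * (n : ℝ) := by positivity
    have h4 : (Nat.card {u : W n → ZMod 2 // (ε / 4) * n < f u} : ℝ) * ((ε / 4) * n) ≤
        (1 / 4 * N) * ((ε / 4) * n) := by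
      refine m1.trans (le_of_eq ?_)
      ring
    exact le_of_mul_le_mul_right h4 h3
  -- find a good `c`
  let xw : W n → ZMod 2 := fun i => x i
  let S1 : Finset (W n → ZMod 2) := univ.filter fun u =>
    (ε / 4) * n < dif (F (x + e0 (W n) u) n) (T x n + F (e0 (W n) u) n)
  let S2 : Finset (W n → ZMod 2) := univ.filter fun u => (ε / 4) * n < f u
  let S3 : Finset (W n → ZMod 2) := S2.image fun u => u + xw
  have c1 : (S1.card : ℝ) < 1 / 4 * N := by
    have : (S1.card : ℝ) = (Nat.card {u : W n → ZMod 2 //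
        ext (W n) 0 u ∈ {c | (ε / 4) * n < dif (F (x + c) n) (T x n + F c n)}} : ℝ) := by
      rw [Nat.card_eq_fintype_card, Fintype.card_subtype]
      rfl
    rw [this]; exact b1
  have c2 : (S2.card : ℝ) ≤ 1 / 4 * N := by
    have : (S2.card : ℝ) = (Nat.card {u : W n → ZMod 2 // (ε / 4) * n < f u} : ℝ) := by
      rw [Nat.card_eq_fintype_card, Fintype.card_subtype]
    rw [this]; exact m2
  have c3 : (S3.card : ℝ) ≤ 1 / 4 * N := le_trans (by exact_mod_cast card_image_le) c2
  have hex : ∃ u, u ∉ S1 ∪ (S2 ∪ S3) := by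
    by_contra hall
    push Not at hall
    have h5 : (univ : Finset (W n → ZMod 2)).card ≤ S1.card + (S2.card + S3.card) := by
      calc (univ : Finset (W n → ZMod 2)).card ≤ (S1 ∪ (S2 ∪ S3)).card :=
            card_le_card fun u _ => hall u
        _ ≤ S1.card + (S2 ∪ S3).card := card_union_le _ _
        _ ≤ S1.card + (S2.card + S3.card) := Nat.add_le_add_left (card_union_le _ _) _
    have h6 : N ≤ S1.card + (S2.card + S3.card) := by
      rw [hN, ← card_univ]
      exact_mod_cast h5
    linarith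
  obtain ⟨u, hu⟩ := hex
  rw [mem_union, mem_union, not_or, not_or] at hu
  obtain ⟨u1, u2, u3⟩ := hu
  have g1 : dif (F (x + e0 (W n) u) n) (T x n + F (e0 (W n) u) n) ≤ (ε / 4) * n := by
    by_contra hlt
    exact u1 (mem_filter.mpr ⟨mem_univ _, not_le.mp hlt⟩)
  have g2 : f u ≤ (ε / 4) * n := by
    by_contra hlt
    exact u2 (mem_filter.mpr ⟨mem_univ _, not_le.mp hlt⟩)
  have g3 : f (u + xw) ≤ (ε / 4) * n := by
    by_contra hlt
    apply u3
    refine mem_image.mpr ⟨u + xw, mem_filter.mpr ⟨mem_univ _, not_le.mp hlt⟩, ?_⟩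
    funext i
    show u i + xw i + xw i = u i
    have h2 : xw i + xw i = 0 := CharTwo.add_self_eq_zero _
    rw [add_assoc, h2, add_zero]
  have hmem := (hh n hne).1
  -- combine
  have e1 : F (x + e0 (W n) u) n = F (e0 (W n) (u + xw)) n := by
    apply hW
    intro i hi
    show x i + ext (W n) 0 u i = ext (W n) 0 (u + xw) i
    rw [ext_of_mem hi, ext_of_mem hi]
    show x i + u ⟨i, hi⟩ = u ⟨i, hi⟩ + x i
    rw [add_comm]
  have e2 : (fun j => e0 (W n) (u + xw) (h n j)) =
      (fun j => e0 (W n) u (h n j)) + fun j => x (h n j) := by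
    funext j
    show ext (W n) 0 (u + xw) (h n j) = ext (W n) 0 u (h n j) + x (h n j)
    rw [ext_of_mem (hmem j), ext_of_mem (hmem j)]
    rfl
  have k1 : dif (F (e0 (W n) (u + xw)) n)
      ((fun j => e0 (W n) u (h n j)) + fun j => x (h n j)) ≤ (ε / 4) * n := by
    rw [← e2]
    exact g3
  rw [e1] at g1
  have k2 : dif (T x n + F (e0 (W n) u) n) (F (e0 (W n) (u + xw)) n) ≤ (ε / 4) * n := by
    have : dif (T x n + F (e0 (W n) u) n) (F (e0 (W n) (u + xw)) n) =
        dif (F (e0 (W n) (u + xw)) n) (T x n + F (e0 (W n) u) n) := by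
      unfold dif
      congr 2
      ext j
      simp only [mem_filter, mem_univ, true_and]
      exact ne_comm
    rw [this]; exact g1
  have k3 : dif (T x n + F (e0 (W n) u) n)
      ((fun j => e0 (W n) u (h n j)) + fun j => x (h n j)) ≤ (ε / 4) * n + (ε / 4) * n :=
    (dif_triangle _ _ _).trans (add_le_add k2 k1)
  have k4 : dif (T x n) (fun j => x (h n j)) ≤ ((ε / 4) * n + (ε / 4) * n) + (ε / 4) * n := by
    have h7 := dif_add (T x n + F (e0 (W n) u) n)
      ((fun j => e0 (W n) u (h n j)) + fun j => x (h n j)) (F (e0 (W n) u) n)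
      (fun j => e0 (W n) u (h n j))
    have h8 : T x n + F (e0 (W n) u) n + F (e0 (W n) u) n = T x n := by
      funext j
      show T x n j + F (e0 (W n) u) n j + F (e0 (W n) u) n j = T x n j
      rw [add_assoc, CharTwo.add_self_eq_zero, add_zero]
    have h9 : ((fun j => e0 (W n) u (h n j)) + fun j => x (h n j)) +
        (fun j => e0 (W n) u (h n j)) = fun j => x (h n j) := by
      funext j
      show e0 (W n) u (h n j) + x (h n j) + e0 (W n) u (h n j) = x (h n j)
      rw [add_comm (e0 (W n) u (h n j)) (x (h n j)), add_assoc, CharTwo.add_self_eq_zero, add_zero]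
    rw [h8, h9] at h7
    exact h7.trans (add_le_add k3 g2)
  nlinarith

end Main

end Pool.Agent.helper69.MU
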